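import Mathlib

/-! # Retracts of noetherian rings are noetherian -/

namespace Pool.Agent.Helper33.Ret

/-- (G0) ideals of `A` are contracted: `a·1 ∈ I R ⇒ a = r(a·1) ∈ I`. -/
theorem comap_map_of_retract {A R : Type} [CommRing A] [CommRing R] [Algebra A R]
    (r : R →ₗ[A] A) (hr : r 1 = 1) (I : Ideal A) :
    (I.map (algebraMap A R)).comap (algebraMap A R) = I := by
  apply le_antisymm _ Ideal.le_comap_map
  intro a ha
  rw [Ideal.mem_comap] at ha
  have h1 : ∀ x ∈ I.map (algebraMap A R), r x ∈ I := by
    intro x hx
    have h2 : x ∈ (I • (⊤ : Submodule A R)) := by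
      rw [Ideal.smul_top_eq_map]
      exact hx
    refine Submodule.smul_induction_on h2 ?_ ?_
    · intro c hc y _
      rw [map_smul, smul_eq_mul]
      exact I.mul_mem_right _ hc
    · intro y z hy hz
      rw [map_add]
      exact I.add_mem hy hz
  have h3 := h1 _ ha
  rwa [Algebra.algebraMap_eq_smul_one, map_smul, hr, smul_eq_mul, mul_one] at h3

/-- (G0) -/
theorem noetherian_of_retract {A R : Type} [CommRing A] [CommRing R] [IsNoetherianRing R]
    [Algebra A R] (r : R →ₗ[A] A) (hr : r 1 = 1) : IsNoetherianRing A := by
  have hinj : Function.Injective (Ideal.map (algebraMap A R)) := by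
    intro I J h
    rw [← comap_map_of_retract r hr I, ← comap_map_of_retract r hr J, h]
  have hm : Monotone (Ideal.map (algebraMap A R)) := fun I J h => Ideal.map_mono h
  have hmono : StrictMono (Ideal.map (algebraMap A R)) := hm.strictMono_of_injective hinj
  have : WellFoundedGT (Ideal A) := hmono.wellFoundedGT
  exact isNoetherian_iff'.mpr this

end Pool.Agent.Helper33.Ret
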