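import Mathlib
import Pool.Agent.Helper33.Ret.Retract

open TensorProduct

/-! # The diagonal ideal of a retract is finitely generated -/

namespace Pool.Agent.Helper33.Ret

/-- (G1) -/
theorem exists_finset_diagonal {k A R : Type} [Field k] [CommRing A] [CommRing R] [Algebra k A]
    [Algebra k R] [Algebra A R] [IsScalarTower k A R] [Algebra.FiniteType k R]
    (r : R →ₗ[A] A) (hr : r 1 = 1) :
    ∃ F : Finset A, ∀ a : A, (1 : A) ⊗ₜ[k] a - a ⊗ₜ[k] 1 ∈
      Ideal.span ((fun x : A => (1 : A) ⊗ₜ[k] x - x ⊗ₜ[k] (1 : A)) '' (F : Set A)) := by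
  classical
  -- the algebra structure of `R ⊗ R` over `A ⊗ A`
  let φ : (A ⊗[k] A) →ₐ[k] (R ⊗[k] R) :=
    Algebra.TensorProduct.map (IsScalarTower.toAlgHom k A R) (IsScalarTower.toAlgHom k A R)
  let _ : Algebra (A ⊗[k] A) (R ⊗[k] R) := φ.toRingHom.toAlgebra
  have hφ : ∀ a b : A, φ (a ⊗ₜ[k] b) = (algebraMap A R a) ⊗ₜ[k] (algebraMap A R b) := by
    intro a b
    simp [φ]
  -- the retraction
  let ρ : (R ⊗[k] R) →ₗ[k] (A ⊗[k] A) :=
    TensorProduct.map (r.restrictScalars k) (r.restrictScalars k)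
  have hρ : ∀ x y : R, ρ (x ⊗ₜ[k] y) = (r x) ⊗ₜ[k] (r y) := by
    intro x y
    simp [ρ]
  have hlin : ∀ (c : A ⊗[k] A) (z : R ⊗[k] R), ρ (φ c * z) = c * ρ z := by
    intro c z
    induction c using TensorProduct.induction_on with
    | zero => simp
    | add c d hc hd => rw [map_add, add_mul, map_add, hc, hd, add_mul]
    | tmul a b =>
      induction z using TensorProduct.induction_on with
      | zero => simp
      | add z w hz hw => rw [mul_add, map_add, hz, hw, map_add, mul_add]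
      | tmul x y =>
        rw [hφ, Algebra.TensorProduct.tmul_mul_tmul, hρ, hρ,
          Algebra.TensorProduct.tmul_mul_tmul, ← Algebra.smul_def, ← Algebra.smul_def,
          map_smul, map_smul, smul_eq_mul, smul_eq_mul]
  let ρ' : (R ⊗[k] R) →ₗ[A ⊗[k] A] (A ⊗[k] A) :=
    { toFun := ρ
      map_add' := map_add ρ
      map_smul' := by
        intro c z
        rw [Algebra.smul_def, RingHom.id_apply, smul_eq_mul]
        exact hlin c z }
  have hρ1 : ρ' 1 = 1 := by
    change ρ 1 = 1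
    rw [Algebra.TensorProduct.one_def, hρ, hr, Algebra.TensorProduct.one_def]
  have hfin : Algebra.FiniteType k (R ⊗[k] R) := by
    have : Algebra.FiniteType R (R ⊗[k] R) := inferInstance
    exact Algebra.FiniteType.trans (R := k) (S := R) (A := R ⊗[k] R) inferInstance this
  have hnoethR : IsNoetherianRing (R ⊗[k] R) := Algebra.FiniteType.isNoetherianRing k _
  have hnoeth : IsNoetherianRing (A ⊗[k] A) := noetherian_of_retract ρ' hρ1
  have hfg : (Ideal.span (Set.range (fun x : A => (1 : A) ⊗ₜ[k] x - x ⊗ₜ[k] (1 : A)))).FG :=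
    IsNoetherian.noetherian _
  obtain ⟨s, hs, hspan⟩ := (Submodule.fg_span_iff_fg_span_finset_subset _).mp hfg
  -- preimage
  have hpre : ∀ y ∈ s, ∃ x : A, (1 : A) ⊗ₜ[k] x - x ⊗ₜ[k] (1 : A) = y := fun y hy => hs hy
  choose! g hg using hpre
  refine ⟨s.image g, fun a => ?_⟩
  have h1 : (1 : A) ⊗ₜ[k] a - a ⊗ₜ[k] 1 ∈
      Ideal.span (Set.range (fun x : A => (1 : A) ⊗ₜ[k] x - x ⊗ₜ[k] (1 : A))) :=
    Ideal.subset_span ⟨a, rfl⟩
  have h2 : Ideal.span (Set.range (fun x : A => (1 : A) ⊗ₜ[k] x - x ⊗ₜ[k] (1 : A)))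
      ≤ Ideal.span ((fun x : A => (1 : A) ⊗ₜ[k] x - x ⊗ₜ[k] (1 : A)) '' (s.image g : Set A)) := by
    rw [Ideal.span, hspan]
    refine Submodule.span_mono ?_
    intro y hy
    refine ⟨g y, ?_, hg y hy⟩
    simp only [Finset.coe_image]
    exact ⟨y, hy, rfl⟩
  exact h2 h1

end Pool.Agent.Helper33.Ret
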