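import Mathlib

open MvPolynomial

namespace Pool.Agent.Helper33.Ret

open TensorProduct in
/-- In characteristic zero the partial derivatives extend to any finitely generated field
extension of the field of rational functions. -/
lemma exists_derivation {k : Type} [Field k] [CharZero k] {n : ℕ} {K : Type*} [Field K]
    [Algebra k K] [Algebra.EssFiniteType k K] [Algebra (MvPolynomial (Fin n) k) K]
    [IsScalarTower k (MvPolynomial (Fin n) k) K]
    (h : Function.Injective (algebraMap (MvPolynomial (Fin n) k) K)) (i : Fin n) :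
    ∃ D : Derivation k K K, ∀ p : MvPolynomial (Fin n) k,
      D (algebraMap _ K p) = algebraMap _ K (pderiv i p) := by
  let P := MvPolynomial (Fin n) k
  have : FaithfulSMul P K := (faithfulSMul_iff_algebraMap_injective P K).mpr h
  let : Algebra (FractionRing P) K := FractionRing.liftAlgebra P K
  have : IsScalarTower P (FractionRing P) K := FractionRing.isScalarTower_liftAlgebra P K
  have : IsScalarTower k (FractionRing P) K := by
    refine IsScalarTower.of_algebraMap_eq fun x => ?_
    rw [IsScalarTower.algebraMap_apply k P (FractionRing P), ← IsScalarTower.algebraMap_apply P,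
      ← IsScalarTower.algebraMap_apply k P K]
  have : Algebra.EssFiniteType (FractionRing P) K := Algebra.EssFiniteType.of_comp k _ _
  have : CharZero (FractionRing P) := by
    have : CharZero P := inferInstance
    infer_instance
  have : Algebra.FormallySmooth (FractionRing P) K := Algebra.FormallySmooth.of_perfectField
  have : Algebra.FormallySmooth P (FractionRing P) :=
    Algebra.FormallySmooth.of_isLocalization (nonZeroDivisors P)
  have : Algebra.FormallySmooth P K := Algebra.FormallySmooth.comp P (FractionRing P) K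
  have : Subsingleton (Algebra.H1Cotangent P K) :=
    Algebra.FormallySmooth.subsingleton_h1Cotangent
  have hinj : Function.Injective (KaehlerDifferential.mapBaseChange k P K) := by
    rw [injective_iff_map_eq_zero]
    intro x hx
    obtain ⟨y, rfl⟩ := (Algebra.H1Cotangent.exact_δ_mapBaseChange k P K x).mp hx
    rw [Subsingleton.elim y 0, map_zero]
  obtain ⟨g, hg⟩ := LinearMap.exists_leftInverse_of_injective
    (KaehlerDifferential.mapBaseChange k P K) (LinearMap.ker_eq_bot.mpr hinj)
  let D0 : Derivation k P P := pderiv i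
  let f : K ⊗[P] Ω[P⁄k] →ₗ[K] K :=
    LinearMap.liftBaseChange K ((Algebra.linearMap P K).comp D0.liftKaehlerDifferential)
  refine ⟨(f.comp g).compDer (KaehlerDifferential.D k K), fun p => ?_⟩
  have h1 : KaehlerDifferential.D k K (algebraMap P K p) =
      KaehlerDifferential.mapBaseChange k P K (1 ⊗ₜ KaehlerDifferential.D k P p) := by
    rw [KaehlerDifferential.mapBaseChange_tmul, one_smul, KaehlerDifferential.map_D]
  have h2 : g (KaehlerDifferential.mapBaseChange k P K (1 ⊗ₜ KaehlerDifferential.D k P p)) =
      1 ⊗ₜ KaehlerDifferential.D k P p := by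
    have := LinearMap.congr_fun hg (1 ⊗ₜ KaehlerDifferential.D k P p)
    simpa using this
  show f (g (KaehlerDifferential.D k K (algebraMap P K p))) = _
  rw [h1, h2]
  simp [f, D0]
  rfl

/-- Clearing denominators. -/
lemma exists_twisted_derivation {k : Type} [Field k] [CharZero k] {n : ℕ} {B : Type*} [CommRing B]
    [IsDomain B] [Algebra k B] [Algebra.FiniteType k B]
    (φ : MvPolynomial (Fin n) k →ₐ[k] B) (hφ : Function.Injective φ) :
    ∃ δ : B, δ ≠ 0 ∧ ∀ i : Fin n, ∃ D : B → B, (∀ x y, D (x * y) = x * D y + y * D x) ∧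
      (∀ x y, D (x + y) = D x + D y) ∧ ∀ p, D (φ p) = δ * φ (pderiv i p) := by
  let P := MvPolynomial (Fin n) k
  let K := FractionRing B
  let : Algebra P B := φ.toRingHom.toAlgebra
  have : IsScalarTower k P B := IsScalarTower.of_algebraMap_eq fun x => (φ.commutes x).symm
  have hKinj : Function.Injective (algebraMap B K) := IsFractionRing.injective B K
  have hPK : ∀ p : P, algebraMap P K p = algebraMap B K (φ p) := fun p =>
    IsScalarTower.algebraMap_apply P B K p
  have : IsScalarTower k P K := by
    refine IsScalarTower.of_algebraMap_eq fun x => ?_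
    rw [hPK, IsScalarTower.algebraMap_apply k B K]
    congr 1
    exact (φ.commutes x).symm
  have : Algebra.EssFiniteType B K := Algebra.EssFiniteType.of_isLocalization K (nonZeroDivisors B)
  have : Algebra.EssFiniteType k K := Algebra.EssFiniteType.comp k B K
  have hinj : Function.Injective (algebraMap P K) := by
    intro p q hpq
    rw [hPK, hPK] at hpq
    exact hφ (hKinj hpq)
  choose D hD using fun i => exists_derivation (k := k) (K := K) hinj i
  obtain ⟨S, hS⟩ := (‹Algebra.FiniteType k B›).out
  obtain ⟨b, hb⟩ := IsLocalization.exist_integer_multiples (nonZeroDivisors B)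
    (Finset.univ ×ˢ S) (fun q : Fin n × B => D q.1 (algebraMap B K q.2))
  have hint : ∀ (i : Fin n) (x : B), ∃ y : B, algebraMap B K y =
      algebraMap B K (b : B) * D i (algebraMap B K x) := by
    intro i x
    have hx : x ∈ Algebra.adjoin k (S : Set B) := by rw [hS]; trivial
    induction hx using Algebra.adjoin_induction with
    | mem s hs =>
      obtain ⟨y, hy⟩ := hb (i, s) (by simpa using hs)
      exact ⟨y, by rw [hy, Algebra.smul_def]⟩
    | algebraMap r =>
      refine ⟨0, ?_⟩
      rw [← IsScalarTower.algebraMap_apply k B K, Derivation.map_algebraMap]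
      simp
    | add x y _ _ hx hy =>
      obtain ⟨x', hx'⟩ := hx
      obtain ⟨y', hy'⟩ := hy
      exact ⟨x' + y', by rw [map_add, map_add, map_add, mul_add, hx', hy']⟩
    | mul x y _ _ hx hy =>
      obtain ⟨x', hx'⟩ := hx
      obtain ⟨y', hy'⟩ := hy
      refine ⟨x * y' + y * x', ?_⟩
      rw [map_add, map_mul, map_mul, map_mul, Derivation.leibniz, hx', hy', smul_eq_mul,
        smul_eq_mul]
      ring
  choose E hE using hint
  refine ⟨b, nonZeroDivisors.coe_ne_zero b, fun i => ⟨E i, ?_, ?_, ?_⟩⟩
  · intro x y
    apply hKinj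
    rw [map_add, map_mul, map_mul, hE, hE, hE, map_mul, Derivation.leibniz, smul_eq_mul,
      smul_eq_mul]
    ring
  · intro x y
    apply hKinj
    rw [map_add, hE, hE, hE, map_add, map_add, mul_add]
  · intro p
    apply hKinj
    rw [hE, map_mul, ← hPK, hD, hPK]

/-- (M6) comparison of topologies (derivations + Artin-Rees) -/
theorem pow_comap_le {k : Type} [Field k] [CharZero k] {n : ℕ} {B : Type*} [CommRing B]
    [IsDomain B] [Algebra k B] [Algebra.FiniteType k B]
    (φ : MvPolynomial (Fin n) k →ₐ[k] B) (hφ : Function.Injective φ) (M : Ideal B)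
    (hM : ∀ p, φ p ∈ M → p ∈ idealOfVars (Fin n) k) (l : ℕ) :
    ∃ j, ∀ p, φ p ∈ M ^ j → p ∈ idealOfVars (Fin n) k ^ l := by
  obtain ⟨δ, hδ, hD⟩ := exists_twisted_derivation φ hφ
  choose D hmul hadd hpd using hD
  have : IsNoetherianRing B := Algebra.FiniteType.isNoetherianRing k B
  -- derivations lower the order by at most one
  have hDM : ∀ (i : Fin n) (j : ℕ) (x : B), x ∈ M ^ (j + 1) → D i x ∈ M ^ j := by
    intro i j
    induction j with
    | zero => intro x _; simp
    | succ j ih =>
      intro x hx
      rw [pow_succ] at hx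
      have hD0 : D i 0 = 0 := by
        have := hadd i 0 0
        rw [add_zero] at this
        simpa using this
      refine Submodule.mul_induction_on hx ?_ ?_
      · intro a ha c hc
        rw [hmul]
        refine Ideal.add_mem _ (Ideal.mul_mem_right _ _ ha) ?_
        rw [pow_succ, mul_comm c]
        exact Ideal.mul_mem_mul (ih a ha) hc
      · intro x y hx hy
        rw [hadd]
        exact Ideal.add_mem _ hx hy
  -- Artin-Rees
  obtain ⟨c, hc⟩ := Ideal.exists_pow_inf_eq_pow_smul (M := B) M (Ideal.span {δ})
  have hAR : ∀ (j : ℕ) (x : B), δ * x ∈ M ^ (j + c) → x ∈ M ^ j := by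
    intro j x hx
    have h1 : δ * x ∈ (M ^ (j + c) • (⊤ : Submodule B B)) ⊓ Ideal.span {δ} :=
      ⟨by simpa using hx, Ideal.mul_mem_right _ _ (Ideal.mem_span_singleton_self δ)⟩
    rw [hc (j + c) (by omega), Nat.add_sub_cancel] at h1
    have h2 : δ * x ∈ M ^ j * Ideal.span {δ} :=
      Submodule.smul_mono le_rfl inf_le_right h1
    rw [Ideal.mem_mul_span_singleton] at h2
    obtain ⟨z, hz, hz'⟩ := h2
    rw [mul_comm] at hz'
    rwa [← mul_left_cancel₀ hδ hz']
  induction l with
  | zero => exact ⟨0, fun p _ => by simp⟩
  | succ l ih =>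
    obtain ⟨j, hj⟩ := ih
    refine ⟨j + c + 1, fun p hp => ?_⟩
    have h0 : p ∈ idealOfVars (Fin n) k := hM p (Ideal.pow_le_self (by omega) hp)
    have h1 : ∀ i, pderiv i p ∈ idealOfVars (Fin n) k ^ l := fun i =>
      hj _ (hAR _ _ (by rw [← hpd]; exact hDM i _ _ hp))
    rw [mem_pow_idealOfVars_iff']
    intro x hx
    by_cases hx0 : x = 0
    · subst hx0
      rw [← pow_one (idealOfVars (Fin n) k), mem_pow_idealOfVars_iff'] at h0
      exact h0 0 (by simp)
    · obtain ⟨i, hi⟩ : ∃ i, x i ≠ 0 := by
        by_contra hcon
        push Not at hcon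
        exact hx0 (Finsupp.ext hcon)
      have hle : Finsupp.single i 1 ≤ x := by
        rw [Finsupp.single_le_iff]
        omega
      have hxe : x = (x - Finsupp.single i 1) + Finsupp.single i 1 :=
        (tsub_add_cancel_of_le hle).symm
      have h2 := h1 i
      rw [mem_pow_idealOfVars_iff'] at h2
      have hdeg : Finsupp.degree x = Finsupp.degree (x - Finsupp.single i 1) + 1 := by
        conv_lhs => rw [hxe]
        rw [map_add, Finsupp.degree_single]
      have h3 := h2 (x - Finsupp.single i 1) (by omega)
      rw [coeff_pderiv, ← hxe] at h3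
      exact (mul_eq_zero.mp h3).resolve_right (Nat.cast_add_one_ne_zero _)

end Pool.Agent.Helper33.Ret
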