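import Mathlib

/-! # Primitive element data for a finite extension of domains in characteristic zero -/

open Polynomial

namespace Pool.Agent.Helper33.Ret

/-- clearing denominators in a polynomial -/
theorem clear_den {P : Type*} [CommRing P] [IsDomain P] (u : (FractionRing P)[X]) :
    ∃ (t : P) (v : P[X]), t ≠ 0 ∧ v.map (algebraMap P (FractionRing P)) =
      Polynomial.C (algebraMap P (FractionRing P) t) * u := by
  obtain ⟨b, hb, hb'⟩ := IsLocalization.integerNormalization_spec (nonZeroDivisors P) u
  refine ⟨b, _, nonZeroDivisors.ne_zero hb, hb'.trans ?_⟩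
  rw [← Polynomial.smul_eq_C_mul, algebraMap_smul]

/-- primitive element data -/
theorem exists_primitive {k P C : Type} [Field k] [CharZero k] [CommRing P] [IsDomain P]
    [IsIntegrallyClosed P] [Algebra k P] [CommRing C] [IsDomain C] [IsIntegrallyClosed C]
    [Algebra P C] [Module.Finite P C]
    (hinj : Function.Injective (algebraMap P C)) :
    ∃ (y : C) (f a b : P[X]) (d : P), d ≠ 0 ∧ aeval y f = 0 ∧
      a * f + b * derivative f = Polynomial.C d ∧
      ∀ c : C, ∃ (t : P) (h : P[X]), t ≠ 0 ∧ algebraMap P C t * c = aeval y h := by
  classical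
  let K := FractionRing P
  let L := FractionRing C
  have hPL : Function.Injective (algebraMap P L) := by
    rw [IsScalarTower.algebraMap_eq P C L]
    exact (IsFractionRing.injective C L).comp hinj
  have : FaithfulSMul P L := (faithfulSMul_iff_algebraMap_injective P L).mpr hPL
  have : FaithfulSMul P C := (faithfulSMul_iff_algebraMap_injective P C).mpr hinj
  let : Algebra K L := FractionRing.liftAlgebra P L
  have : IsScalarTower P K L := FractionRing.isScalarTower_liftAlgebra P L
  have : CharZero K := by
    have : Function.Injective ((algebraMap P K).comp (algebraMap k P)) := RingHom.injective _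
    exact charZero_of_injective_ringHom this
  have : IsIntegralClosure C P L := IsIntegralClosure.of_isIntegrallyClosed _ _ _
  have : Algebra.IsAlgebraic K L := isAlgebraic_of_isFractionRing P C ..
  have : IsLocalization (Algebra.algebraMapSubmonoid C (nonZeroDivisors P)) L :=
    IsIntegralClosure.isLocalization _ K _ _
  have : FiniteDimensional K L := .of_isLocalization P C (nonZeroDivisors P)
  obtain ⟨α, hα⟩ := Field.exists_primitive_element K L
  have hαP : IsAlgebraic P α := (IsFractionRing.isAlgebraic_iff P K L).mpr
    (Algebra.IsAlgebraic.isAlgebraic α)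
  obtain ⟨t0, ht0, hint⟩ := hαP.exists_integral_multiple
  obtain ⟨y, hy⟩ := IsIntegralClosure.isIntegral_iff (A := C) (R := P) (B := L) |>.mp hint
  have ht0K : algebraMap P K t0 ≠ 0 := by
    rw [Ne, FaithfulSMul.algebraMap_eq_zero_iff]; exact ht0
  have hprim : IntermediateField.adjoin K {algebraMap C L y} = ⊤ := by
    rw [eq_top_iff, ← hα, IntermediateField.adjoin_le_iff, Set.singleton_subset_iff]
    have h1 : algebraMap C L y ∈ IntermediateField.adjoin K {algebraMap C L y} :=
      IntermediateField.mem_adjoin_simple_self K _
    have h2 : α = (algebraMap P K t0)⁻¹ • algebraMap C L y := by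
      rw [hy, ← algebraMap_smul K t0 α, smul_smul, inv_mul_cancel₀ ht0K, one_smul]
    change α ∈ IntermediateField.adjoin K {algebraMap C L y}
    rw [h2]
    exact IntermediateField.smul_mem _ h1
  have hyint : IsIntegral P (algebraMap C L y) :=
    (Algebra.IsIntegral.isIntegral (R := P) y).map (IsScalarTower.toAlgHom P C L)
  have hyK : IsIntegral K (algebraMap C L y) := hyint.tower_top
  have hadj : Algebra.adjoin K {algebraMap C L y} = ⊤ := by
    rw [← IntermediateField.adjoin_simple_toSubalgebra_of_isAlgebraic hyK.isAlgebraic, hprim]
    rfl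
  set f : P[X] := minpoly P (algebraMap C L y) with hf
  have hfK : minpoly K (algebraMap C L y) = f.map (algebraMap P K) :=
    minpoly.isIntegrallyClosed_eq_field_fractions' K hyint
  have hsep : (f.map (algebraMap P K)).Separable := by
    rw [← hfK]; exact (minpoly.irreducible hyK).separable
  obtain ⟨u, v, huv⟩ := hsep
  obtain ⟨t1, u1, ht1, hu1⟩ := clear_den u
  obtain ⟨t2, v2, ht2, hv2⟩ := clear_den v
  refine ⟨y, f, Polynomial.C t2 * u1, Polynomial.C t1 * v2, t1 * t2, mul_ne_zero ht1 ht2, ?_, ?_, ?_⟩
  · apply IsFractionRing.injective C L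
    rw [map_zero, ← Polynomial.aeval_algebraMap_apply]
    exact minpoly.aeval P _
  · apply Polynomial.map_injective (algebraMap P K) (IsFractionRing.injective P K)
    rw [Polynomial.map_add, Polynomial.map_mul, Polynomial.map_mul, Polynomial.map_mul,
      Polynomial.map_mul, Polynomial.map_C, Polynomial.map_C, Polynomial.map_C, hu1, hv2, map_mul,
      Polynomial.C_mul, ← Polynomial.derivative_map]
    calc Polynomial.C (algebraMap P K t2) * (Polynomial.C (algebraMap P K t1) * u) *
            f.map (algebraMap P K) +
          Polynomial.C (algebraMap P K t1) * (Polynomial.C (algebraMap P K t2) * v) *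
            derivative (f.map (algebraMap P K))
        = Polynomial.C (algebraMap P K t1) * Polynomial.C (algebraMap P K t2) *
          (u * f.map (algebraMap P K) + v * derivative (f.map (algebraMap P K))) := by ring
      _ = _ := by rw [huv, mul_one]
  · intro c
    have hc : algebraMap C L c ∈ Algebra.adjoin K {algebraMap C L y} := by
      rw [hadj]; exact Algebra.mem_top
    rw [Algebra.adjoin_singleton_eq_range_aeval] at hc
    obtain ⟨h, hh⟩ := hc
    obtain ⟨t, h', ht, hh'⟩ := clear_den h
    refine ⟨t, h', ht, ?_⟩
    apply IsFractionRing.injective C L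
    rw [map_mul, ← Polynomial.aeval_algebraMap_apply, ← IsScalarTower.algebraMap_apply,
      ← Polynomial.aeval_map_algebraMap K, hh', map_mul, Polynomial.aeval_C,
      ← IsScalarTower.algebraMap_apply]
    congr 1
    exact hh.symm

end Pool.Agent.Helper33.Ret
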