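import Mathlib

/-! # Normality lemma: associated primes of principal ideals of a normal noetherian domain are
locally principal (elementary form). -/

namespace Pool.Agent.Helper33.Ret

/-- (M2) normality lemma -/
theorem exists_uniformizer {D : Type*} [CommRing D] [IsDomain D] [IsNoetherianRing D]
    [IsIntegrallyClosed D] {g h : D} (hg : g ≠ 0) (hh : ¬ g ∣ h) {Q : Ideal D} [Q.IsPrime]
    (hQ : ∀ x, x ∈ Q ↔ g ∣ h * x) :
    ∃ p ∈ Q, p ≠ 0 ∧ ∃ s ∉ Q, ∀ x ∈ Q, p ∣ s * x := by
  classical
  have hgQ : g ∈ Q := (hQ g).mpr (Dvd.intro_left h rfl)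
  by_cases hcase : ∃ p ∈ Q, ∃ s, s ∉ Q ∧ h * p = g * s
  · obtain ⟨p, hp, s, hs, hps⟩ := hcase
    have hp0 : p ≠ 0 := by
      rintro rfl
      rw [mul_zero] at hps
      have : s = 0 := by
        rcases mul_eq_zero.mp hps.symm with h1 | h1
        · exact absurd h1 hg
        · exact h1
      exact hs (this ▸ Q.zero_mem)
    refine ⟨p, hp, hp0, s, hs, fun x hx => ?_⟩
    obtain ⟨t, ht⟩ := (hQ x).mp hx
    refine ⟨t, ?_⟩
    apply mul_left_cancel₀ hg
    calc g * (s * x) = (g * s) * x := by ring
      _ = (h * p) * x := by rw [hps]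
      _ = (h * x) * p := by ring
      _ = (g * t) * p := by rw [ht]
      _ = g * (p * t) := by ring
  · exfalso
    push Not at hcase
    let K := FractionRing D
    set x0 : K := algebraMap D K h / algebraMap D K g with hx0
    have hgK : algebraMap D K g ≠ 0 := by
      rw [Ne, FaithfulSMul.algebraMap_eq_zero_iff]; exact hg
    have hstab : ∀ p ∈ Q, ∃ s ∈ Q, algebraMap D K s = x0 * algebraMap D K p := by
      intro p hp
      obtain ⟨s, hs⟩ := (hQ p).mp hp
      refine ⟨s, ?_, ?_⟩
      · by_contra hsQ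
        exact hcase p hp s hsQ hs
      · apply mul_left_cancel₀ hgK
        rw [← mul_assoc, mul_div_cancel₀ _ hgK, ← map_mul, ← map_mul, hs]
    -- Q as a D-submodule of K
    let N : Submodule D K := Submodule.map (Algebra.linearMap D K) Q
    have hNfg : N.FG := Submodule.FG.map _ (IsNoetherian.noetherian Q)
    have hint : IsIntegral D x0 := by
      refine isIntegral_of_smul_mem_submodule N ?_ hNfg x0 ?_
      · rw [Submodule.ne_bot_iff]
        exact ⟨algebraMap D K g, ⟨g, hgQ, rfl⟩, hgK⟩
      · rintro _ ⟨p, hp, rfl⟩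
        obtain ⟨s, hs, hs'⟩ := hstab p hp
        exact ⟨s, hs, by simpa using hs'⟩
    obtain ⟨y, hy⟩ := IsIntegrallyClosed.isIntegral_iff.mp hint
    apply hh
    refine ⟨y, ?_⟩
    have : algebraMap D K h = algebraMap D K (g * y) := by
      rw [map_mul, hy, mul_div_cancel₀ _ hgK]
    exact FaithfulSMul.algebraMap_injective D K this

end Pool.Agent.Helper33.Ret
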