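import Mathlib

/-! # Contraction of associated primes of principal ideals along a finite extension of a UFD -/

open Polynomial

namespace Pool.Agent.Helper33.Ret

/-- minimal polynomial of a scaled element -/
theorem minpoly_mul_eq_scaleRoots {K L : Type*} [Field K] [Field L] [Algebra K L] (x : L)
    (hx : IsIntegral K x) (a : K) (ha : a ≠ 0) :
    minpoly K (algebraMap K L a * x) = (minpoly K x).scaleRoots a := by
  have hmon : ((minpoly K x).scaleRoots a).Monic := (monic_scaleRoots_iff a).mpr (minpoly.monic hx)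
  have hroot : aeval (algebraMap K L a * x) ((minpoly K x).scaleRoots a) = 0 :=
    scaleRoots_aeval_eq_zero (minpoly.aeval K x)
  have hx' : IsIntegral K (algebraMap K L a * x) := ⟨_, hmon, hroot⟩
  have hroot2 : aeval x ((minpoly K (algebraMap K L a * x)).scaleRoots a⁻¹) = 0 := by
    have h := scaleRoots_aeval_eq_zero (r := a⁻¹) (minpoly.aeval K (algebraMap K L a * x))
    have h2 : algebraMap K L a⁻¹ * (algebraMap K L a * x) = x := by
      rw [← mul_assoc, ← map_mul, inv_mul_cancel₀ ha, map_one, one_mul]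
    rwa [h2] at h
  have hd1 : (minpoly K (algebraMap K L a * x)).natDegree ≤ (minpoly K x).natDegree := by
    have := natDegree_le_natDegree (minpoly.degree_le_of_ne_zero K (algebraMap K L a * x)
      hmon.ne_zero hroot)
    rwa [natDegree_scaleRoots] at this
  have hd2 : (minpoly K x).natDegree ≤ (minpoly K (algebraMap K L a * x)).natDegree := by
    have hmon2 : ((minpoly K (algebraMap K L a * x)).scaleRoots a⁻¹).Monic :=
      (monic_scaleRoots_iff _).mpr (minpoly.monic hx')
    have := natDegree_le_natDegree (minpoly.degree_le_of_ne_zero K x hmon2.ne_zero hroot2)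
    rwa [natDegree_scaleRoots] at this
  refine (eq_of_monic_of_dvd_of_natDegree_le (minpoly.monic hx') hmon
    (minpoly.dvd K _ hroot) ?_).symm
  rw [natDegree_scaleRoots]; exact hd2

/-- (M5) contraction of divisorial primes -/
theorem contract_principal {P C : Type*} [CommRing P] [IsDomain P] [UniqueFactorizationMonoid P]
    [CommRing C] [IsDomain C] [IsIntegrallyClosed C] [Algebra P C] [Algebra.IsIntegral P C]
    (hinj : Function.Injective (algebraMap P C)) {d : P} (hd : d ≠ 0) {h : C}
    (hh : ¬ algebraMap P C d ∣ h) {Q : Ideal C} [Q.IsPrime]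
    (hQ : ∀ x, x ∈ Q ↔ algebraMap P C d ∣ h * x) :
    ∃ g : P, Prime g ∧ ∀ x : P, algebraMap P C x ∈ Q ↔ g ∣ x := by
  classical
  have hdQ : d ∈ Q.comap (algebraMap P C) := by
    rw [Ideal.mem_comap, hQ]; exact Dvd.intro_left h rfl
  obtain ⟨g, hgQ, hg⟩ := Ideal.IsPrime.exists_mem_prime_of_ne_bot
    (inferInstance : (Q.comap (algebraMap P C)).IsPrime) (by
      intro h0; rw [h0] at hdQ; exact hd (by simpa using hdQ))
  refine ⟨g, hg, fun w => ⟨fun hw => ?_, fun ⟨t, ht⟩ => by
    rw [ht, map_mul]; exact Q.mul_mem_right _ hgQ⟩⟩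
  by_contra hgw
  have hw0 : w ≠ 0 := by rintro rfl; exact hgw (dvd_zero g)
  let K := FractionRing P
  let L := FractionRing C
  have hPL : Function.Injective (algebraMap P L) := by
    rw [IsScalarTower.algebraMap_eq P C L]
    exact (IsFractionRing.injective C L).comp hinj
  have : FaithfulSMul P L := (faithfulSMul_iff_algebraMap_injective P L).mpr hPL
  let : Algebra K L := FractionRing.liftAlgebra P L
  have : IsScalarTower P K L := FractionRing.isScalarTower_liftAlgebra P L
  have hdL : algebraMap P L d ≠ 0 := by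
    rw [Ne, FaithfulSMul.algebraMap_eq_zero_iff]; exact hd
  set ξ : L := algebraMap C L h / algebraMap P L d with hξ
  obtain ⟨u, hu⟩ := (hQ _).mp (Ideal.mem_comap.mp hgQ)
  obtain ⟨v, hv⟩ := (hQ _).mp hw
  have e1 : algebraMap P L g * ξ = algebraMap C L u := by
    apply mul_left_cancel₀ hdL
    rw [hξ, mul_left_comm, mul_div_cancel₀ _ hdL, IsScalarTower.algebraMap_apply P C L,
      IsScalarTower.algebraMap_apply P C L, ← map_mul, ← map_mul, ← hu, mul_comm]
  have e2 : algebraMap P L w * ξ = algebraMap C L v := by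
    apply mul_left_cancel₀ hdL
    rw [hξ, mul_left_comm, mul_div_cancel₀ _ hdL, IsScalarTower.algebraMap_apply P C L,
      IsScalarTower.algebraMap_apply P C L, ← map_mul, ← map_mul, ← hv, mul_comm]
  have hξint : IsIntegral K ξ := by
    have : IsIntegral K (algebraMap C L h) :=
      ((Algebra.IsIntegral.isIntegral (R := P) h).map (IsScalarTower.toAlgHom P C L)).tower_top
    rw [hξ, div_eq_mul_inv, IsScalarTower.algebraMap_apply P K L, ← map_inv₀]
    exact this.mul isIntegral_algebraMap
  let p := minpoly K ξ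
  -- coefficients
  have main : ∀ (a : P) (c : C), a ≠ 0 → algebraMap P L a * ξ = algebraMap C L c →
      ∀ i, ∃ A : P, algebraMap P K A = p.coeff i * algebraMap P K a ^ (p.natDegree - i) := by
    intro a c ha hac i
    have hcint : IsIntegral P (algebraMap C L c) :=
      (Algebra.IsIntegral.isIntegral (R := P) c).map (IsScalarTower.toAlgHom P C L)
    have h1 := minpoly.isIntegrallyClosed_eq_field_fractions' K hcint
    have haK : algebraMap P K a ≠ 0 := by
      rw [Ne, FaithfulSMul.algebraMap_eq_zero_iff]; exact ha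
    have h2 : minpoly K (algebraMap C L c) = p.scaleRoots (algebraMap P K a) := by
      rw [← hac, IsScalarTower.algebraMap_apply P K L]
      exact minpoly_mul_eq_scaleRoots ξ hξint _ haK
    refine ⟨(minpoly P (algebraMap C L c)).coeff i, ?_⟩
    rw [← coeff_map, ← h1, h2, coeff_scaleRoots]
  have hcoef : ∀ i, p.coeff i ∈ (algebraMap P K).range := by
    intro i
    obtain ⟨A, hA⟩ := main g u hg.ne_zero e1 i
    obtain ⟨B, hB⟩ := main w v hw0 e2 i
    have hAB : w ^ (p.natDegree - i) * A = g ^ (p.natDegree - i) * B := by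
      apply IsFractionRing.injective P K
      rw [map_mul, map_mul, hA, hB, map_pow, map_pow]; ring
    have hdvd : g ^ (p.natDegree - i) ∣ A := by
      have : g ^ (p.natDegree - i) ∣ A * w ^ (p.natDegree - i) := ⟨B, by rw [mul_comm, hAB]⟩
      exact hg.pow_dvd_of_dvd_mul_right _ (fun hh => hgw (hg.dvd_of_dvd_pow hh)) this
    obtain ⟨A', rfl⟩ := hdvd
    refine ⟨A', ?_⟩
    rw [map_mul, map_pow, mul_comm] at hA
    have hgK : algebraMap P K g ^ (p.natDegree - i) ≠ 0 := by
      apply pow_ne_zero
      rw [Ne, FaithfulSMul.algebraMap_eq_zero_iff]; exact hg.ne_zero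
    exact mul_right_cancel₀ hgK hA
  have hlift : p ∈ Polynomial.lifts (algebraMap P K) := by
    rw [Polynomial.lifts_iff_coeff_lifts]
    intro i
    obtain ⟨a, ha⟩ := hcoef i
    exact ⟨a, ha⟩
  obtain ⟨p', hp', -, hp'm⟩ := Polynomial.lifts_and_natDegree_eq_and_monic hlift (minpoly.monic hξint)
  have hξP : IsIntegral P ξ := by
    refine ⟨p', hp'm, ?_⟩
    rw [← Polynomial.aeval_def, ← Polynomial.aeval_map_algebraMap K, hp']
    exact minpoly.aeval K ξ
  obtain ⟨y, hy⟩ := IsIntegrallyClosed.isIntegral_iff.mp (hξP.tower_top (A := C))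
  apply hh
  refine ⟨y, IsFractionRing.injective C L ?_⟩
  rw [map_mul, hy, hξ, ← IsScalarTower.algebraMap_apply, mul_div_cancel₀ _ hdL]

end Pool.Agent.Helper33.Ret
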