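import Mathlib

/-! # Reducedness of fibres of a flat base change

Let `S` be a flat `P`-algebra, `g ∈ P` such that `S / gS` is reduced and let `q` be a prime of a
finite `P`-algebra `C` lying over `(g)`.  In characteristic zero `(C ⊗ S) / q (C ⊗ S)` is reduced. -/

open TensorProduct

namespace Pool.Agent.Helper33.Ret

section fieldExt

variable {K L R : Type*} [Field K] [Field L] [Algebra K L] [CommRing R] [Algebra K R]

/-- A reduced algebra stays reduced after a finite separable base change. -/
theorem isReduced_tensor_field [FiniteDimensional K L] [Algebra.IsSeparable K L] [IsReduced R] :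
    IsReduced (R ⊗[K] L) := by
  constructor
  intro x hx
  let b := Module.finBasis K L
  let B : Module.Basis _ R (R ⊗[K] L) := Algebra.TensorProduct.basis R b
  have key : ∀ i, B.repr x i = 0 := by
    intro i
    apply IsNilpotent.eq_zero
    rw [← mem_nilradical, nilradical_eq_sInf, Ideal.mem_sInf]
    intro p hp
    have hp : p.IsPrime := hp
    let F := p.ResidueField
    let f : R ⊗[K] L →ₐ[K] F ⊗[K] L := Algebra.TensorProduct.map (IsScalarTower.toAlgHom K R F)
      (AlgHom.id K L)
    have : Algebra.FormallyUnramified K L := Algebra.FormallyUnramified.of_isSeparable K L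
    have hred : IsReduced (F ⊗[K] L) :=
      Algebra.FormallyUnramified.isReduced_of_field F (F ⊗[K] L)
    have h0 : f x = 0 := (hx.map f).eq_zero
    let B' : Module.Basis _ F (F ⊗[K] L) := Algebra.TensorProduct.basis F b
    have hcoord : ∀ y : R ⊗[K] L, B'.repr (f y) i = algebraMap R F (B.repr y i) := by
      intro y
      induction y using TensorProduct.induction_on with
      | zero => simp
      | tmul r l =>
        simp only [f, B, B', Algebra.TensorProduct.map_tmul, AlgHom.coe_id, id_eq,
          Algebra.TensorProduct.basis_repr_tmul, Finsupp.smul_apply, smul_eq_mul]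
        rw [Finsupp.mapRange_apply, Finsupp.mapRange_apply, map_mul]
        rw [← IsScalarTower.algebraMap_apply K R F]
        rfl
      | add y z hy hz => simp [map_add, hy, hz]
    have h1 := hcoord x
    rw [h0] at h1
    simp only [map_zero, Finsupp.coe_zero, Pi.zero_apply] at h1
    exact Ideal.algebraMap_residueField_eq_zero.mp h1.symm
  have : B.repr x = 0 := Finsupp.ext (by simpa using key)
  simpa using this

end fieldExt

section

variable {P S C K L : Type*} [CommRing P] [CommRing S] [CommRing C] [Field K] [Field L]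
  [Algebra P S] [Algebra P C] [Algebra P K] [Algebra P L] [Algebra K L] [IsScalarTower P K L]

/-- `K ⊗ S` is reduced if `S/gS` is, `K = Frac (P/g)`. -/
theorem isReduced_baseChange_field [Module.Flat P S] (g : P)
    (hK : ∀ κ : K, ∃ a b : P, algebraMap P K b ≠ 0 ∧ κ * algebraMap P K b = algebraMap P K a)
    (hg : ∀ x : P, algebraMap P K x = 0 ↔ g ∣ x)
    (hsq : ∀ f : S, algebraMap P S g ∣ f ^ 2 → algebraMap P S g ∣ f) :
    IsReduced (K ⊗[P] S) := by
  -- kernel of `S → K ⊗ S`
  have hker : ∀ s : S, (1 : K) ⊗ₜ[P] s = 0 → algebraMap P S g ∣ s := by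
    intro s hs
    -- exact sequence P, P, K
    have hex : Function.Exact (LinearMap.lsmul P P g) (Algebra.linearMap P K) := by
      intro x
      simp only [Algebra.linearMap_apply, Set.mem_range, LinearMap.lsmul_apply, smul_eq_mul]
      rw [hg]
      constructor
      · rintro ⟨y, rfl⟩; exact ⟨y, rfl⟩
      · rintro ⟨y, rfl⟩; exact ⟨y, rfl⟩
    have hex2 := Module.Flat.rTensor_exact (M := S) hex
    have h1 : (LinearMap.rTensor S (Algebra.linearMap P K)) ((1 : P) ⊗ₜ[P] s) = 0 := by
      simpa using hs
    obtain ⟨t, ht⟩ := (hex2 _).mp h1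
    have h2 := congrArg (TensorProduct.lid P S) ht
    simp only [TensorProduct.lid_tmul, one_smul] at h2
    have h3 : ∀ t : P ⊗[P] S, TensorProduct.lid P S (LinearMap.rTensor S (LinearMap.lsmul P P g) t)
        = algebraMap P S g * TensorProduct.lid P S t := by
      intro t
      induction t using TensorProduct.induction_on with
      | zero => simp
      | tmul a b => simp [Algebra.smul_def, mul_assoc]
      | add a b ha hb => simp only [map_add, ha, hb, mul_add]
    rw [h3] at h2
    exact ⟨_, h2.symm⟩
  have hden : ∀ x : K ⊗[P] S, ∃ b : P, algebraMap P K b ≠ 0 ∧ ∃ s : S, b • x = (1 : K) ⊗ₜ[P] s := by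
    intro x
    induction x using TensorProduct.induction_on with
    | zero => exact ⟨1, by simp, 0, by simp⟩
    | tmul κ s =>
      obtain ⟨a, b, hb, hab⟩ := hK κ
      refine ⟨b, hb, a • s, ?_⟩
      rw [TensorProduct.smul_tmul', Algebra.smul_def, mul_comm, hab, ← TensorProduct.smul_tmul,
        Algebra.smul_def, mul_one]
    | add x y hx hy =>
      obtain ⟨b, hb, s, hs⟩ := hx
      obtain ⟨b', hb', s', hs'⟩ := hy
      refine ⟨b * b', by simp [hb, hb'], b' • s + b • s', ?_⟩
      rw [smul_add, TensorProduct.tmul_add, TensorProduct.tmul_smul, TensorProduct.tmul_smul,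
        ← hs, ← hs', smul_smul, smul_smul, mul_comm b b']
  have hsq2 : ∀ x : K ⊗[P] S, x ^ 2 = 0 → x = 0 := by
    intro x hx
    obtain ⟨b, hb, s, hs⟩ := hden x
    have h1 : (1 : K) ⊗ₜ[P] (s ^ 2) = 0 := by
      have : ((1 : K) ⊗ₜ[P] s) ^ 2 = 0 := by
        rw [← hs, smul_pow, hx, smul_zero]
      simpa [Algebra.TensorProduct.tmul_pow] using this
    obtain ⟨s', rfl⟩ := hsq s (hker _ h1)
    have h2 : b • x = 0 := by
      rw [hs, ← Algebra.smul_def, ← TensorProduct.smul_tmul, Algebra.smul_def, mul_one,
        (hg g).mpr dvd_rfl, TensorProduct.zero_tmul]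
    have h3 : (algebraMap P K b) • x = 0 := by
      rw [algebraMap_smul]; exact h2
    exact (smul_eq_zero_iff_right hb).mp h3
  exact ⟨fun x hx => by
    obtain ⟨n, hn⟩ := hx
    have : ∀ n (x : K ⊗[P] S), x ^ (2 ^ n) = 0 → x = 0 := by
      intro n
      induction n with
      | zero => intro x hx; simpa using hx
      | succ n ih =>
        intro x hx
        rw [pow_succ, pow_mul] at hx
        exact ih x (hsq2 _ hx)
    exact this n x (pow_eq_zero_of_le n.lt_two_pow_self.le hn)⟩

end

/-- **(T6)** -/
theorem mem_map_of_sq_mem_map {k P S C : Type} [Field k] [CharZero k] [CommRing P]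
    [Algebra k P] [CommRing S] [Algebra P S] [Module.Flat P S]
    [CommRing C] [Algebra P C] [Module.Finite P C] (q : Ideal C) [q.IsPrime] (g : P)
    (hg : ∀ x, algebraMap P C x ∈ q ↔ g ∣ x)
    (hsq : ∀ f : S, algebraMap P S g ∣ f ^ 2 → algebraMap P S g ∣ f)
    (z : C ⊗[P] S) (hz : z ^ 2 ∈ q.map (algebraMap C (C ⊗[P] S))) :
    z ∈ q.map (algebraMap C (C ⊗[P] S)) := by
  let p : Ideal P := q.under P
  let := Localization.AtPrime.algebraOfLiesOver p q
  let K := p.ResidueField
  let L := q.ResidueField
  have : Module.Finite K L := inferInstance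
  have : IsScalarTower P K L := inferInstance
  have : CharZero K := by
    have : Function.Injective ((algebraMap P K).comp (algebraMap k P)) := RingHom.injective _
    exact charZero_of_injective_ringHom this
  have : IsReduced (K ⊗[P] S) := by
    refine isReduced_baseChange_field g ?_ ?_ hsq
    · intro κ
      obtain ⟨a, b, hb, hab⟩ := IsFractionRing.div_surjective (A := P ⧸ p) κ
      obtain ⟨a, rfl⟩ := Ideal.Quotient.mk_surjective a
      obtain ⟨b, rfl⟩ := Ideal.Quotient.mk_surjective b
      have hb' : algebraMap P K b ≠ 0 := by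
        rw [nonZeroDivisors] at hb
        intro h
        rw [Ideal.algebraMap_residueField_eq_zero] at h
        exact nonZeroDivisors.ne_zero hb (Ideal.Quotient.eq_zero_iff_mem.mpr h)
      refine ⟨a, b, hb', ?_⟩
      rw [← hab]
      exact div_mul_cancel₀ _ hb'
    · intro x
      rw [Ideal.algebraMap_residueField_eq_zero, ← hg]
      rfl
  have : IsReduced (L ⊗[P] S) := by
    have h1 : IsReduced ((K ⊗[P] S) ⊗[K] L) := isReduced_tensor_field
    let e1 : (K ⊗[P] S) ⊗[K] L ≃ₐ[K] L ⊗[K] (K ⊗[P] S) := Algebra.TensorProduct.comm K _ _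
    let e2 : L ⊗[K] (K ⊗[P] S) ≃ₐ[L] L ⊗[P] S := Algebra.TensorProduct.cancelBaseChange P K L L S
    have h2 : IsReduced (L ⊗[K] (K ⊗[P] S)) := isReduced_of_injective e1.symm e1.symm.injective
    exact isReduced_of_injective e2.symm e2.symm.injective
  -- map T → L ⊗ S
  let Φ : C ⊗[P] S →ₐ[P] L ⊗[P] S :=
    Algebra.TensorProduct.map (IsScalarTower.toAlgHom P C L) (AlgHom.id P S)
  have hker : ∀ t, Φ t = 0 ↔ t ∈ q.map (algebraMap C (C ⊗[P] S)) := by
    have hex : Function.Exact (q.restrictScalars P).subtype
        (IsScalarTower.toAlgHom P C L).toLinearMap := by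
      intro x
      simp only [AlgHom.toLinearMap_apply, IsScalarTower.coe_toAlgHom', Submodule.coe_subtype,
        Set.mem_range, Subtype.exists, Submodule.restrictScalars_mem, exists_prop,
        exists_eq_right]
      exact Ideal.algebraMap_residueField_eq_zero
    have hex2 := Module.Flat.rTensor_exact (M := S) hex
    intro t
    have h1 : Φ t = LinearMap.rTensor S (IsScalarTower.toAlgHom P C L).toLinearMap t := rfl
    rw [h1, hex2 t]
    have h2 := Ideal.map_includeLeft_eq (R := P) (B := S) q
    have h3 : t ∈ LinearMap.range (LinearMap.rTensor S (Submodule.subtype (q.restrictScalars P)))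
        ↔ t ∈ q.map (algebraMap C (C ⊗[P] S)) := by
      rw [← h2]; rfl
    rw [← h3]; rfl
  rw [← hker] at hz ⊢
  rw [map_pow] at hz
  exact pow_eq_zero_iff (n := 2) (by norm_num) |>.mp hz

end Pool.Agent.Helper33.Ret
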