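import Mathlib
import Pool.Agent.Helper33.Ret.NormLemma
import Pool.Agent.Helper33.Ret.PContract
import Pool.Agent.Helper33.Ret.TRed

/-! # `z² = d z ⇒ d ∣ z` in a flat base change of a normal ring -/

open TensorProduct

namespace Pool.Agent.Helper33.Ret

/-- associated primes of a principal ideal, packaged -/
theorem exists_assoc {C : Type*} [CommRing C] [IsNoetherianRing C] (d : C) :
    ∃ 𝒬 : Set (Ideal C), 𝒬.Finite ∧
      (∀ q ∈ 𝒬, q.IsPrime ∧ ∃ h, ¬ d ∣ h ∧ ∀ x, x ∈ q ↔ d ∣ h * x) ∧
      ∀ c : C, (∀ q ∈ 𝒬, c ∉ q) → ∀ x, d ∣ c * x → d ∣ x := by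
  refine ⟨associatedPrimes C (C ⧸ Ideal.span {d}), associatedPrimes.finite C _, ?_, ?_⟩
  · intro q hq
    rw [AssociatedPrimes.mem_iff, isAssociatedPrime_iff] at hq
    obtain ⟨hp, y, hy⟩ := hq
    obtain ⟨h, rfl⟩ := Ideal.Quotient.mk_surjective y
    have key : ∀ x, x ∈ q ↔ d ∣ h * x := by
      intro x
      rw [hy, Submodule.mem_colon_singleton, Submodule.mem_bot, ← Ideal.mem_span_singleton,
        ← Ideal.Quotient.eq_zero_iff_mem, mul_comm h x]
      rfl
    refine ⟨hp, h, fun hd => hp.ne_top ?_, key⟩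
    rw [Ideal.eq_top_iff_one, key, mul_one]
    exact hd
  · intro c hc x hx
    have h1 : c ∉ ⋃ q ∈ associatedPrimes C (C ⧸ Ideal.span {d}), (q : Set C) := by
      simp only [Set.mem_iUnion, not_exists]
      intro q hq
      exact hc q hq
    rw [biUnion_associatedPrimes_eq_zero_divisors] at h1
    simp only [Set.mem_ofPred_eq, not_exists, not_and] at h1
    by_contra hdx
    refine h1 (Ideal.Quotient.mk _ x) (fun h0 => hdx ?_) ?_
    · rwa [Ideal.Quotient.eq_zero_iff_mem, Ideal.mem_span_singleton] at h0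
    · have : c • (Ideal.Quotient.mk (Ideal.span {d}) x) = Ideal.Quotient.mk _ (c * x) := rfl
      rw [this, Ideal.Quotient.eq_zero_iff_mem, Ideal.mem_span_singleton]
      exact hx

section flat
variable {C T : Type*} [CommRing C] [CommRing T] [Algebra C T] [Module.Flat C T]

/-- relations `c t = d u` in a flat algebra -/
theorem flat_relation (c d : C) (t u : T) (h : algebraMap C T c * t = algebraMap C T d * u) :
    t ∈ Submodule.span T (algebraMap C T '' {x | d ∣ c * x}) := by
  obtain ⟨κ, a, y, h1, h2⟩ := Module.Flat.isTrivialRelation_of_sum_smul_eq_zero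
    (R := C) (M := T) (f := ![c, -d]) (x := ![t, u]) (by
      simp [Fin.sum_univ_two, Algebra.smul_def, h])
  have ht := h1 0
  simp only [Matrix.cons_val_zero] at ht
  rw [ht]
  refine Submodule.sum_mem _ fun j _ => ?_
  rw [Algebra.smul_def, mul_comm]
  refine Submodule.smul_mem _ _ (Submodule.subset_span ⟨_, ?_, rfl⟩)
  have h3 := h2 j
  simp only [Fin.sum_univ_two, Matrix.cons_val_zero, Matrix.cons_val_one] at h3
  exact ⟨a 1 j, by linear_combination h3⟩

/-- a nonzerodivisor mod `d` stays so in a flat extension -/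
theorem flat_dvd (c d : C) (hcd : ∀ x, d ∣ c * x → d ∣ x) (t : T)
    (h : algebraMap C T d ∣ algebraMap C T c * t) : algebraMap C T d ∣ t := by
  obtain ⟨u, hu⟩ := h
  have h1 := flat_relation c d t u hu
  refine Submodule.span_induction ?_ (dvd_zero _) ?_ ?_ h1
  · rintro _ ⟨x, hx, rfl⟩
    exact map_dvd _ (hcd x hx)
  · intro x y _ _ hx hy
    exact dvd_add hx hy
  · intro a x _ hx
    exact Dvd.dvd.mul_left hx a

theorem flat_cancel [IsDomain C] (c : C) (hc : c ≠ 0) (t u : T)
    (h : algebraMap C T c * t = algebraMap C T c * u) : t = u := by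
  have h1 : algebraMap C T c * (t - u) = algebraMap C T 0 * 0 := by
    rw [mul_sub, h, sub_self, mul_zero]
  have h2 := flat_relation c 0 (t - u) 0 h1
  have h3 : {x : C | (0 : C) ∣ c * x} = {0} := by
    ext x
    simp [zero_dvd_iff, hc]
  rw [h3, Set.image_singleton, map_zero, Submodule.span_zero_singleton, Submodule.mem_bot,
    sub_eq_zero] at h2
  exact h2

end flat

/-- **(T5)** -/
theorem dvd_of_sq_eq_mul {k P S C : Type} [Field k] [CharZero k] [CommRing P] [IsDomain P]
    [UniqueFactorizationMonoid P] [Algebra k P]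
    [CommRing S] [Algebra P S] [Module.Flat P S]
    [CommRing C] [IsDomain C] [IsNoetherianRing C] [IsIntegrallyClosed C] [Algebra P C]
    [Module.Finite P C] (hinj : Function.Injective (algebraMap P C))
    (hsq : ∀ g : P, Prime g → ∀ f : S, algebraMap P S g ∣ f ^ 2 → algebraMap P S g ∣ f)
    (d : P) (hd : d ≠ 0) (z : C ⊗[P] S)
    (hz : z ^ 2 = algebraMap C (C ⊗[P] S) (algebraMap P C d) * z) :
    algebraMap C (C ⊗[P] S) (algebraMap P C d) ∣ z := by
  classical
  set D : C := algebraMap P C d with hD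
  have hD0 : D ≠ 0 := by
    rw [hD]; intro h0; exact hd (hinj (by rw [h0, map_zero]))
  obtain ⟨𝒬, hfin, hQ, hnzd⟩ := exists_assoc D
  -- the ideal of multipliers
  let J : Ideal C :=
    { carrier := {c | algebraMap C (C ⊗[P] S) D ∣ algebraMap C (C ⊗[P] S) c * z}
      add_mem' := by
        intro a b ha hb
        simp only [Set.mem_ofPred_eq, map_add, add_mul] at *
        exact dvd_add ha hb
      zero_mem' := by simp
      smul_mem' := by
        intro a b hb
        simp only [Set.mem_ofPred_eq, smul_eq_mul, map_mul, mul_assoc] at *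
        exact Dvd.dvd.mul_left hb _ }
  have hJ : ∀ q ∈ 𝒬, ¬ (J ≤ q) := by
    intro q hq
    obtain ⟨hqp, h, hh, hqh⟩ := hQ q hq
    obtain ⟨g, hg, hgq⟩ := contract_principal hinj hd hh hqh
    obtain ⟨p, hpq, hp0, s, hs, hsp⟩ := exists_uniformizer hD0 hh hqh
    have hDq : D ∈ q := (hqh D).mpr (Dvd.intro_left h rfl)
    -- multiplicity
    have hex : ∃ j, ¬ ∃ τ, τ ∉ q ∧ p ^ j ∣ τ * D := by
      by_contra hcon
      push Not at hcon
      let Cq := Localization.AtPrime q
      have hmem : algebraMap C Cq D ∈ (⨅ j : ℕ, (Ideal.span {algebraMap C Cq p}) ^ j : Ideal Cq) := by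
        rw [Ideal.mem_iInf]
        intro j
        obtain ⟨τ, hτ, w, hw⟩ := hcon j
        rw [Ideal.span_singleton_pow, Ideal.mem_span_singleton]
        have hu : IsUnit (algebraMap C Cq τ) := IsLocalization.map_units Cq (⟨τ, hτ⟩ : q.primeCompl)
        rw [← hu.dvd_mul_left, ← map_mul, ← map_pow, hw]
        exact map_dvd _ (Dvd.intro _ rfl)
      have hbot : (⨅ j : ℕ, (Ideal.span {algebraMap C Cq p}) ^ j : Ideal Cq) = ⊥ := by
        apply Ideal.iInf_pow_eq_bot_of_isDomain
        rw [Ne, Ideal.span_singleton_eq_top]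
        intro hu
        have := (IsLocalization.AtPrime.to_map_mem_maximal_iff Cq q p).mpr hpq
        exact this hu
      rw [hbot, Ideal.mem_bot] at hmem
      have : D = 0 := by
        apply IsLocalization.injective Cq (Ideal.primeCompl_le_nonZeroDivisors q)
        rw [hmem, map_zero]
      exact hD0 this
    let m' := Nat.find hex
    have hm' : ¬ ∃ τ, τ ∉ q ∧ p ^ m' ∣ τ * D := Nat.find_spec hex
    have hm'0 : m' ≠ 0 := by
      intro h0
      apply hm'
      rw [h0]
      exact ⟨1, (Ideal.ne_top_iff_one _).mp hqp.ne_top, by simp⟩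
    obtain ⟨m, hm⟩ := Nat.exists_eq_succ_of_ne_zero hm'0
    have hDm : ∃ τ, τ ∉ q ∧ p ^ m ∣ τ * D := by
      by_contra hcon
      have := Nat.find_min' hex hcon
      omega
    obtain ⟨τ, hτ, dm, hdm⟩ := hDm
    have hdmq : dm ∉ q := by
      intro hdmq
      obtain ⟨w, hw⟩ := hsp dm hdmq
      apply hm'
      refine ⟨s * τ, fun hh => (hqp.mem_or_mem hh).elim hs hτ, w, ?_⟩
      rw [hm, pow_succ]
      calc s * τ * D = s * (τ * D) := by ring
        _ = p ^ m * (s * dm) := by rw [hdm]; ring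
        _ = p ^ m * p * w := by rw [hw]; ring
    -- q-divisibility in T
    have hqT : ∀ t : C ⊗[P] S, t ∈ q.map (algebraMap C (C ⊗[P] S)) → algebraMap C (C ⊗[P] S) p ∣ algebraMap C (C ⊗[P] S) s * t := by
      intro t ht
      refine Submodule.span_induction ?_ ?_ ?_ ?_ ht
      · rintro _ ⟨x, hx, rfl⟩
        rw [← map_mul]
        exact map_dvd _ (hsp x hx)
      · simp
      · intro x y _ _ hx hy
        rw [mul_add]; exact dvd_add hx hy
      · intro a x _ hx
        rw [smul_eq_mul, mul_left_comm]; exact Dvd.dvd.mul_left hx a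
    have hstep : ∀ j ≤ m, ∃ τj, τj ∉ q ∧ ∃ zj : C ⊗[P] S, algebraMap C (C ⊗[P] S) τj * z =
        algebraMap C (C ⊗[P] S) p ^ j * zj := by
      intro j
      induction j with
      | zero =>
        intro _
        exact ⟨1, (Ideal.ne_top_iff_one _).mp hqp.ne_top, z, by rw [map_one, pow_zero]⟩
      | succ j ih =>
        intro hj
        obtain ⟨τj, hτj, zj, hzj⟩ := ih (by omega)
        have hpj : (p ^ j) ≠ 0 := pow_ne_zero _ hp0
        have e1 : algebraMap C (C ⊗[P] S) p ^ j * zj ^ 2 = algebraMap C (C ⊗[P] S) τj * algebraMap C (C ⊗[P] S) D * zj := by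
          apply flat_cancel (p ^ j) hpj
          rw [map_pow]
          calc algebraMap C (C ⊗[P] S) p ^ j * (algebraMap C (C ⊗[P] S) p ^ j * zj ^ 2)
              = (algebraMap C (C ⊗[P] S) p ^ j * zj) ^ 2 := by ring
            _ = algebraMap C (C ⊗[P] S) τj ^ 2 * z ^ 2 := by rw [← hzj]; ring
            _ = algebraMap C (C ⊗[P] S) τj * algebraMap C (C ⊗[P] S) D * (algebraMap C (C ⊗[P] S) τj * z) := by rw [hz]; ring
            _ = algebraMap C (C ⊗[P] S) p ^ j * (algebraMap C (C ⊗[P] S) τj * algebraMap C (C ⊗[P] S) D * zj) := by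
                rw [hzj]; ring
        obtain ⟨e, he⟩ : ∃ e, m = j + 1 + e := Nat.exists_eq_add_of_le hj
        have e2 : algebraMap C (C ⊗[P] S) τ * zj ^ 2 = algebraMap C (C ⊗[P] S) p *
            (algebraMap C (C ⊗[P] S) p ^ e * algebraMap C (C ⊗[P] S) τj * algebraMap C (C ⊗[P] S) dm * zj) := by
          apply flat_cancel (p ^ j) hpj
          rw [map_pow]
          calc algebraMap C (C ⊗[P] S) p ^ j * (algebraMap C (C ⊗[P] S) τ * zj ^ 2)
              = algebraMap C (C ⊗[P] S) τ * (algebraMap C (C ⊗[P] S) p ^ j * zj ^ 2) := by ring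
            _ = algebraMap C (C ⊗[P] S) (τ * D) * algebraMap C (C ⊗[P] S) τj * zj := by rw [e1, map_mul]; ring
            _ = _ := by rw [hdm, he, map_mul, map_pow]; ring
        have e3 : (algebraMap C (C ⊗[P] S) τ * zj) ^ 2 ∈ q.map (algebraMap C (C ⊗[P] S)) := by
          have : (algebraMap C (C ⊗[P] S) τ * zj) ^ 2 = algebraMap C (C ⊗[P] S) p *
            (algebraMap C (C ⊗[P] S) τ * (algebraMap C (C ⊗[P] S) p ^ e * algebraMap C (C ⊗[P] S) τj * algebraMap C (C ⊗[P] S) dm * zj)) := by
            calc (algebraMap C (C ⊗[P] S) τ * zj) ^ 2 = algebraMap C (C ⊗[P] S) τ * (algebraMap C (C ⊗[P] S) τ * zj ^ 2) := by ring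
              _ = _ := by rw [e2]; ring
          rw [this]
          exact Ideal.mul_mem_right _ _ (Ideal.mem_map_of_mem _ hpq)
        have e4 := mem_map_of_sq_mem_map (k := k) q g hgq (hsq g hg) _ e3
        obtain ⟨z', hz'⟩ := hqT _ e4
        refine ⟨s * τ * τj, fun hh => ?_, z', ?_⟩
        · rcases hqp.mem_or_mem hh with hh | hh
          · exact (hqp.mem_or_mem hh).elim hs hτ
          · exact hτj hh
        · calc algebraMap C (C ⊗[P] S) (s * τ * τj) * z
              = algebraMap C (C ⊗[P] S) s * algebraMap C (C ⊗[P] S) τ * (algebraMap C (C ⊗[P] S) τj * z) := by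
                rw [map_mul, map_mul]; ring
            _ = algebraMap C (C ⊗[P] S) p ^ j * (algebraMap C (C ⊗[P] S) s * (algebraMap C (C ⊗[P] S) τ * zj)) := by
                rw [hzj]; ring
            _ = _ := by rw [hz', pow_succ]; ring
    obtain ⟨τm, hτm, zm, hzm⟩ := hstep m le_rfl
    intro hle
    have : dm * τm ∈ J := by
      change algebraMap C (C ⊗[P] S) D ∣ algebraMap C (C ⊗[P] S) (dm * τm) * z
      refine ⟨algebraMap C (C ⊗[P] S) τ * zm, ?_⟩
      calc algebraMap C (C ⊗[P] S) (dm * τm) * z = algebraMap C (C ⊗[P] S) dm * (algebraMap C (C ⊗[P] S) τm * z) := by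
            rw [map_mul]; ring
        _ = algebraMap C (C ⊗[P] S) (p ^ m * dm) * zm := by rw [hzm, map_mul, map_pow]; ring
        _ = _ := by rw [← hdm, map_mul]; ring
    exact (hqp.mem_or_mem (hle this)).elim hdmq hτm
  -- prime avoidance
  obtain ⟨c, hcJ, hc⟩ : ∃ c ∈ J, ∀ q ∈ 𝒬, c ∉ q := by
    by_contra hcon
    push Not at hcon
    have hsub : (J : Set C) ⊆ ⋃ q ∈ hfin.toFinset, (q : Set C) := by
      intro c hc
      obtain ⟨q, hq, hcq⟩ := hcon c hc
      simp only [Set.Finite.mem_toFinset, Set.mem_iUnion]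
      exact ⟨q, hq, hcq⟩
    rw [show (⋃ q ∈ hfin.toFinset, (q : Set C)) = ⋃ q ∈ (hfin.toFinset : Set (Ideal C)), ((id q : Ideal C) : Set C) by simp] at hsub
    have := (Ideal.subset_union_prime (f := id) ⊥ ⊥ (fun q hq _ _ => by
      have hq : q ∈ 𝒬 := by simpa using hq
      exact (hQ q hq).1)).mp hsub
    obtain ⟨q, hq, hle⟩ := this
    have hq : q ∈ 𝒬 := by simpa using hq
    exact hJ q hq hle
  exact flat_dvd c D (hnzd c hc) z hcJ

end Pool.Agent.Helper33.Ret
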