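import Mathlib
import Pool.Agent.Helper33.Ret.TNormal
import Pool.Agent.Helper33.Ret.Prim

/-! # Idempotents attached to minimal primes of `C ⊗ S`, `C` normal -/

open TensorProduct Polynomial

namespace Pool.Agent.Helper33.Ret

theorem exists_idempotent {k P S C : Type} [Field k] [CharZero k] [CommRing P] [IsDomain P]
    [UniqueFactorizationMonoid P] [Algebra k P]
    [CommRing S] [IsDomain S] [IsIntegrallyClosed S] [Algebra P S] [Module.Flat P S]
    [CommRing C] [IsDomain C] [IsNoetherianRing C] [IsIntegrallyClosed C] [Algebra P C]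
    [Module.Finite P C] (hinj : Function.Injective (algebraMap P C))
    (hinjS : Function.Injective (algebraMap P S))
    (hsq : ∀ g : P, Prime g → ∀ f : S, algebraMap P S g ∣ f ^ 2 → algebraMap P S g ∣ f)
    (N : Ideal (C ⊗[P] S)) [N.IsPrime]
    (hN : ∀ s : S, (1 : C) ⊗ₜ[P] s ∈ N → s = 0) :
    ∃ e : C ⊗[P] S, e * e = e ∧ 1 - e ∈ N ∧ ∀ x ∈ N, e * x = 0 := by
  classical
  obtain ⟨y, f, a, b, d, hd, hfy, hab, hprim⟩ := exists_primitive (k := k) hinj
  let T := C ⊗[P] S
  let ι : S →+* C ⊗[P] S := (Algebra.TensorProduct.includeRight : S →ₐ[P] C ⊗[P] S).toRingHom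
  let Y : C ⊗[P] S := y ⊗ₜ[P] 1
  let ev : S[X] →+* C ⊗[P] S := Polynomial.eval₂RingHom ι Y
  have hι : ∀ p : P, ι (algebraMap P S p) = algebraMap C (C ⊗[P] S) (algebraMap P C p) := by
    intro p
    have : ι (algebraMap P S p) = algebraMap P (C ⊗[P] S) p := by
      exact (Algebra.TensorProduct.includeRight : S →ₐ[P] C ⊗[P] S).commutes p
    rw [this, IsScalarTower.algebraMap_apply P C (C ⊗[P] S)]
  have hevP : ∀ h : P[X], ev (h.map (algebraMap P S)) = algebraMap C (C ⊗[P] S) (aeval y h) := by
    intro h
    have h1 : ev.comp (Polynomial.mapRingHom (algebraMap P S)) =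
        (algebraMap C (C ⊗[P] S)).comp (aeval y : P[X] →ₐ[P] C).toRingHom := by
      apply Polynomial.ringHom_ext
      · intro p
        simp only [ev, RingHom.comp_apply, Polynomial.coe_mapRingHom, Polynomial.map_C,
          Polynomial.coe_eval₂RingHom, Polynomial.eval₂_C, AlgHom.toRingHom_eq_coe,
          RingHom.coe_coe, Polynomial.aeval_C]
        exact hι p
      · simp only [ev, RingHom.comp_apply, Polynomial.coe_mapRingHom, Polynomial.map_X,
          Polynomial.coe_eval₂RingHom, Polynomial.eval₂_X, AlgHom.toRingHom_eq_coe,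
          RingHom.coe_coe, Polynomial.aeval_X]
        rfl
    exact congrArg (fun φ => φ h) h1
  -- the quotient domain
  let D := (C ⊗[P] S) ⧸ N
  let π : C ⊗[P] S →+* D := Ideal.Quotient.mk N
  let : Algebra S D := (π.comp ι).toAlgebra
  have hDmap : ∀ s, algebraMap S D s = π (ι s) := fun s => rfl
  have hinjD : Function.Injective (algebraMap S D) := by
    rw [injective_iff_map_eq_zero]
    intro s hs
    rw [hDmap, Ideal.Quotient.eq_zero_iff_mem] at hs
    exact hN s hs
  have : FaithfulSMul S D := (faithfulSMul_iff_algebraMap_injective S D).mpr hinjD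
  have hevD : ∀ h : S[X], aeval (π Y) h = π (ev h) := by
    intro h
    have h1 : (aeval (π Y) : S[X] →ₐ[S] D).toRingHom = π.comp ev := by
      apply Polynomial.ringHom_ext
      · intro p
        simp only [ev, RingHom.comp_apply, Polynomial.coe_eval₂RingHom, Polynomial.eval₂_C,
          AlgHom.toRingHom_eq_coe, RingHom.coe_coe, Polynomial.aeval_C]
        rfl
      · simp only [ev, RingHom.comp_apply, Polynomial.coe_eval₂RingHom, Polynomial.eval₂_X,
          AlgHom.toRingHom_eq_coe, RingHom.coe_coe, Polynomial.aeval_X]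
    exact congrArg (fun φ => φ h) h1
  -- monic relation: ȳ is integral over S
  have hYint : IsIntegral S (π Y) := by
    obtain ⟨q, hqm, hq⟩ := Algebra.IsIntegral.isIntegral (R := P) y
    refine ⟨q.map (algebraMap P S), hqm.map _, ?_⟩
    rw [← Polynomial.aeval_def, hevD, hevP, Polynomial.aeval_def, hq, map_zero, map_zero]
  set F := minpoly S (π Y) with hF
  have hdvd : ∀ h : S[X], π (ev h) = 0 → F ∣ h := by
    intro h hh
    exact minpoly.isIntegrallyClosed_dvd hYint (by rw [hevD, hh])
  have hF0 : π (ev F) = 0 := by rw [← hevD]; exact minpoly.aeval S _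
  have hfS0 : ev (f.map (algebraMap P S)) = 0 := by rw [hevP, hfy, map_zero]
  obtain ⟨G, hG⟩ := hdvd (f.map (algebraMap P S)) (by rw [hfS0, map_zero])
  have hFG : ev F * ev G = 0 := by rw [← map_mul, ← hG, hfS0]
  have hder : ev ((derivative f).map (algebraMap P S)) =
      ev (derivative F) * ev G + ev F * ev (derivative G) := by
    rw [← Polynomial.derivative_map, hG, Polynomial.derivative_mul, map_add, map_mul, map_mul]
  set dT : C ⊗[P] S := algebraMap C (C ⊗[P] S) (algebraMap P C d) with hdT
  have hbf : ev (b.map (algebraMap P S)) * ev ((derivative f).map (algebraMap P S)) = dT := by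
    have h1 := congrArg (fun q => ev (q.map (algebraMap P S))) hab
    simp only [Polynomial.map_add, Polynomial.map_mul, map_add, map_mul] at h1
    rw [hfS0, mul_zero, zero_add, hevP (Polynomial.C d), Polynomial.aeval_C] at h1
    exact h1
  set z : C ⊗[P] S := ev (b.map (algebraMap P S)) * ev (derivative F) * ev G with hz
  have hz2 : z ^ 2 = dT * z := by
    rw [← hbf, hder, hz]
    linear_combination (-(ev (b.map (algebraMap P S))) ^ 2 * ev (derivative F) *
      ev (derivative G)) * hFG
  have hcancel : ∀ t u : C ⊗[P] S, ∀ p : P, p ≠ 0 →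
      algebraMap C (C ⊗[P] S) (algebraMap P C p) * t =
      algebraMap C (C ⊗[P] S) (algebraMap P C p) * u → t = u := by
    intro t u p hp h
    refine flat_cancel (algebraMap P C p) ?_ t u h
    intro h0
    exact hp (hinj (by rw [h0, map_zero]))
  obtain ⟨e, he⟩ := dvd_of_sq_eq_mul (k := k) hinj hsq d hd z hz2
  rw [← hdT] at he
  refine ⟨e, ?_, ?_, ?_⟩
  · apply hcancel _ _ d hd
    apply hcancel _ _ d hd
    rw [← hdT]
    calc dT * (dT * (e * e)) = (dT * e) ^ 2 := by ring
      _ = dT * (dT * e) := by rw [← he, hz2]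
  · -- mod N
    have h1 : dT * (1 - e) ∈ N := by
      rw [← Ideal.Quotient.eq_zero_iff_mem]
      change π (dT * (1 - e)) = 0
      rw [mul_sub, mul_one, ← he, ← hbf, hder, hz, map_sub, map_mul, map_add, map_mul, map_mul, map_mul,
        map_mul, hF0]
      ring
    rcases ‹N.IsPrime›.mem_or_mem h1 with h2 | h2
    · exfalso
      have h3 : ι (algebraMap P S d) ∈ N := by rw [hι]; exact h2
      have h4 := hN _ h3
      exact hd (hinjS (by rw [h4, map_zero]))
    · exact h2
  · intro x hx
    -- t x = ev h
    have hx1 : ∀ x : C ⊗[P] S, ∃ (t : P) (h : S[X]), t ≠ 0 ∧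
        algebraMap C (C ⊗[P] S) (algebraMap P C t) * x = ev h := by
      intro x
      induction x using TensorProduct.induction_on with
      | zero => exact ⟨1, 0, one_ne_zero, by simp⟩
      | tmul c s =>
        obtain ⟨t, h, ht, hh⟩ := hprim c
        refine ⟨t, h.map (algebraMap P S) * Polynomial.C s, ht, ?_⟩
        rw [map_mul, hevP, ← hh]
        have h1 : ev (Polynomial.C s) = (1 : C) ⊗ₜ[P] s := by
          simp only [ev, Polynomial.coe_eval₂RingHom, Polynomial.eval₂_C]
          rfl
        have h2 : c ⊗ₜ[P] s = algebraMap C (C ⊗[P] S) c * ((1 : C) ⊗ₜ[P] s) := by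
          rw [Algebra.TensorProduct.algebraMap_apply]
          simp
        rw [h1, h2, map_mul, mul_assoc]
      | add x x' ih ih' =>
        obtain ⟨t, h, ht, hh⟩ := ih
        obtain ⟨t', h', ht', hh'⟩ := ih'
        refine ⟨t * t', Polynomial.C (algebraMap P S t') * h + Polynomial.C (algebraMap P S t) * h',
          mul_ne_zero ht ht', ?_⟩
        have h1 : ∀ p : P, ev (Polynomial.C (algebraMap P S p)) =
            algebraMap C (C ⊗[P] S) (algebraMap P C p) := by
          intro p
          simp only [ev, Polynomial.coe_eval₂RingHom, Polynomial.eval₂_C]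
          exact hι p
        rw [map_add ev, map_mul ev, map_mul ev, h1, h1, ← hh, ← hh', map_mul, map_mul]
        ring
    obtain ⟨t, h, ht, hh⟩ := hx1 x
    have h0 : π (ev h) = 0 := by
      rw [← hh]
      exact Ideal.Quotient.eq_zero_iff_mem.mpr (N.mul_mem_left _ hx)
    obtain ⟨h', rfl⟩ := hdvd h h0
    apply hcancel _ _ d hd
    apply hcancel _ _ t ht
    rw [← hdT, mul_zero, mul_zero]
    calc algebraMap C (C ⊗[P] S) (algebraMap P C t) * (dT * (e * x))
        = (dT * e) * (algebraMap C (C ⊗[P] S) (algebraMap P C t) * x) := by ring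
      _ = 0 := by
        rw [← he, hh, hz, map_mul]
        linear_combination (ev (b.map (algebraMap P S)) * ev (derivative F) * ev h') * hFG

end Pool.Agent.Helper33.Ret
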