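import Mathlib

/-! # Approximate solutions and limits (linear compactness) -/

open MvPolynomial

namespace Pool.Agent.Helper33.Ret

section art
variable (k : Type) [Field k] (n : ℕ)

theorem finite_quot_pow (l : ℕ) :
    Module.Finite k (MvPolynomial (Fin n) k ⧸ (idealOfVars (Fin n) k) ^ l) := by
  have hint : Algebra.IsIntegral k (MvPolynomial (Fin n) k ⧸ (idealOfVars (Fin n) k) ^ l) := by
    constructor
    intro x
    obtain ⟨p, rfl⟩ := Ideal.Quotient.mk_surjective x
    let a : k := constantCoeff p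
    have h1 : p - C a ∈ idealOfVars (Fin n) k := by
      have := (mem_pow_idealOfVars_iff' (σ := Fin n) (R := k) 1 (p - C a)).mpr (by
        intro x hx
        have hx0 : x = 0 := by
          rw [Nat.lt_one_iff] at hx
          exact (Finsupp.degree_eq_zero_iff x).mp hx
        subst hx0
        simp [a, constantCoeff_eq])
      simpa using this
    have h2 : (p - C a) ^ l ∈ (idealOfVars (Fin n) k) ^ l := Ideal.pow_mem_pow h1 l
    refine ⟨(Polynomial.X - Polynomial.C a) ^ l, (Polynomial.monic_X_sub_C a).pow l, ?_⟩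
    rw [Polynomial.eval₂_pow, Polynomial.eval₂_sub, Polynomial.eval₂_X, Polynomial.eval₂_C]
    have h3 : algebraMap k (MvPolynomial (Fin n) k ⧸ (idealOfVars (Fin n) k) ^ l) a =
        Ideal.Quotient.mk _ (C a) := rfl
    rw [h3, ← map_sub, ← map_pow]
    exact Ideal.Quotient.eq_zero_iff_mem.mpr h2
  exact Algebra.IsIntegral.finite

variable {k n}
variable {N : Type} [AddCommGroup N] [Module (MvPolynomial (Fin n) k) N]
  [Module.Finite (MvPolynomial (Fin n) k) N]

variable (k n N) in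
theorem isArtinian_quot (l : ℕ) : IsArtinian (MvPolynomial (Fin n) k)
    (N ⧸ ((idealOfVars (Fin n) k) ^ l • ⊤ : Submodule (MvPolynomial (Fin n) k) N)) := by
  let I := (idealOfVars (Fin n) k) ^ l
  have h0 := finite_quot_pow k n l
  have h1 : IsArtinianRing (MvPolynomial (Fin n) k ⧸ I) := IsArtinianRing.of_finite k _
  have h2 : IsArtinian (MvPolynomial (Fin n) k ⧸ I)
      (N ⧸ (I • ⊤ : Submodule (MvPolynomial (Fin n) k) N)) := inferInstance
  exact isArtinian_of_surjective_algebraMap (S := MvPolynomial (Fin n) k)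
    (R := MvPolynomial (Fin n) k ⧸ I) Ideal.Quotient.mk_surjective

/-- approximate solutions can be chosen coherently -/
theorem exists_coherent (S : ℕ → Set N) (U : ℕ → Submodule (MvPolynomial (Fin n) k) N)
    (hne : ∀ j, (S j).Nonempty) (hanti : ∀ j, S (j + 1) ⊆ S j)
    (hU : ∀ j, U (j + 1) ≤ U j)
    (hsub : ∀ j, ∀ a ∈ S j, ∀ b ∈ S j, a - b ∈ U j)
    (hadd : ∀ j, ∀ a ∈ S j, ∀ u ∈ U j, a + u ∈ S j) :
    ∃ x : ℕ → N, (∀ l, x l ∈ S l) ∧
      ∀ l, x (l + 1) - x l ∈ ((idealOfVars (Fin n) k) ^ l • ⊤ : Submodule (MvPolynomial (Fin n) k) N) := by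
  classical
  have hantiS : Antitone S := antitone_nat_of_succ_le hanti
  have hantiU : Antitone U := antitone_nat_of_succ_le hU
  -- stabilization
  have hst : ∀ l, ∃ J, ∀ m, J ≤ m →
      (U J).map ((idealOfVars (Fin n) k) ^ l • ⊤ : Submodule (MvPolynomial (Fin n) k) N).mkQ =
      (U m).map ((idealOfVars (Fin n) k) ^ l • ⊤ : Submodule (MvPolynomial (Fin n) k) N).mkQ := by
    intro l
    have := isArtinian_quot k n N l
    exact IsArtinian.monotone_stabilizes
      ⟨fun j => OrderDual.toDual ((U j).map ((idealOfVars (Fin n) k) ^ l • ⊤ : Submodule (MvPolynomial (Fin n) k) N).mkQ),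
        fun i j hij => Submodule.map_mono (hantiU hij)⟩
  choose J0 hJ0 using hst
  -- J l: monotone, ≥ l, ≥ J0 l
  let J : ℕ → ℕ := fun l => l + ∑ i ∈ Finset.range (l + 1), J0 i
  have hJl : ∀ l, l ≤ J l := fun l => Nat.le_add_right _ _
  have hJJ0 : ∀ l, J0 l ≤ J l := by
    intro l
    have : J0 l ≤ ∑ i ∈ Finset.range (l + 1), J0 i :=
      Finset.single_le_sum (fun _ _ => Nat.zero_le _) (Finset.mem_range.mpr (Nat.lt_succ_self l))
    simp only [J]; omega
  have hJm : ∀ l, J l ≤ J (l + 1) := by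
    intro l
    simp only [J]
    rw [Finset.sum_range_succ _ (l + 1)]
    omega
  have hstep : ∀ l, ∀ a ∈ S (J l), ∃ a' ∈ S (J (l + 1)),
      a' - a ∈ ((idealOfVars (Fin n) k) ^ l • ⊤ : Submodule (MvPolynomial (Fin n) k) N) := by
    intro l a ha
    obtain ⟨b, hb⟩ := hne (J (l + 1))
    have hb' : b ∈ S (J l) := hantiS (hJm l) hb
    have h1 : a - b ∈ U (J l) := hsub _ a ha b hb'
    have h2 : (U (J l)).map ((idealOfVars (Fin n) k) ^ l • ⊤ : Submodule (MvPolynomial (Fin n) k) N).mkQ =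
        (U (J (l + 1))).map ((idealOfVars (Fin n) k) ^ l • ⊤ : Submodule (MvPolynomial (Fin n) k) N).mkQ := by
      rw [← hJ0 l _ (hJJ0 l), ← hJ0 l _ ((hJJ0 l).trans (hJm l))]
    have h3 : ((idealOfVars (Fin n) k) ^ l • ⊤ : Submodule (MvPolynomial (Fin n) k) N).mkQ (a - b) ∈
        (U (J (l + 1))).map ((idealOfVars (Fin n) k) ^ l • ⊤ : Submodule (MvPolynomial (Fin n) k) N).mkQ := by
      rw [← h2]; exact Submodule.mem_map_of_mem h1
    obtain ⟨u, hu, hu'⟩ := h3
    refine ⟨b + u, hadd _ b hb u hu, ?_⟩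
    rw [← Submodule.ker_mkQ ((idealOfVars (Fin n) k) ^ l • ⊤ : Submodule (MvPolynomial (Fin n) k) N), LinearMap.mem_ker]
    rw [map_sub, map_add, hu', map_sub]
    abel
  let g : ∀ l, {a // a ∈ S (J l)} := fun l => Nat.rec ⟨(hne (J 0)).choose, (hne (J 0)).choose_spec⟩
    (fun l a => ⟨(hstep l a.1 a.2).choose, (hstep l a.1 a.2).choose_spec.1⟩) l
  refine ⟨fun l => (g l).1, fun l => hantiS (hJl l) (g l).2, fun l => ?_⟩
  exact (hstep l (g l).1 (g l).2).choose_spec.2

end art

end Pool.Agent.Helper33.Ret
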