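import Mathlib
import Pool.Agent.Helper33.Ret.Idem
import Pool.Agent.Helper33.Ret.Lim

/-! # The local step, given the facts on power series -/

open MvPolynomial TensorProduct

namespace Pool.Agent.Helper33.Ret

section theta
variable {k : Type} [Field k] {n : ℕ}
variable {C B : Type} [CommRing C] [Algebra (MvPolynomial (Fin n) k) C]
  [CommRing B] [Algebra (MvPolynomial (Fin n) k) B] (M : Ideal B)
  (hM : ∀ p ∈ idealOfVars (Fin n) k, algebraMap (MvPolynomial (Fin n) k) B p ∈ M)

include hM in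
theorem map_pow_le (j : ℕ) (p : MvPolynomial (Fin n) k) (hp : p ∈ (idealOfVars (Fin n) k) ^ j) :
    algebraMap (MvPolynomial (Fin n) k) B p ∈ M ^ j := by
  have h1 : (idealOfVars (Fin n) k).map (algebraMap (MvPolynomial (Fin n) k) B) ≤ M :=
    Ideal.map_le_iff_le_comap.mpr hM
  have h2 := Ideal.mem_map_of_mem (algebraMap (MvPolynomial (Fin n) k) B) hp
  rw [Ideal.map_pow] at h2
  exact Ideal.pow_right_mono h1 j h2

/-- `P / 𝔭^j → B / M^j` -/
noncomputable def quotMap (j : ℕ) : (MvPolynomial (Fin n) k ⧸ (idealOfVars (Fin n) k) ^ j) →ₐ[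
    MvPolynomial (Fin n) k] (B ⧸ M ^ j) :=
  Ideal.Quotient.liftₐ _ (Algebra.ofId (MvPolynomial (Fin n) k) (B ⧸ M ^ j)) (by
    intro p hp
    rw [Algebra.ofId_apply, IsScalarTower.algebraMap_apply _ B (B ⧸ M ^ j)]
    exact Ideal.Quotient.eq_zero_iff_mem.mpr (map_pow_le M hM j p hp))

/-- evaluation of power series in `B / M^j` -/
noncomputable def theta (j : ℕ) : MvPowerSeries (Fin n) k →ₐ[MvPolynomial (Fin n) k] (B ⧸ M ^ j) :=
  (quotMap M hM j).comp (MvPowerSeries.truncTotalAlgHom (Fin n) k j)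

theorem theta_apply (j : ℕ) (s : MvPowerSeries (Fin n) k) : theta M hM j s =
    Ideal.Quotient.mk (M ^ j) (algebraMap (MvPolynomial (Fin n) k) B
      (MvPowerSeries.truncTotal j s)) := rfl

/-- `C ⊗ k[[x]] → B / M^j` -/
noncomputable def Theta (f : C →ₐ[MvPolynomial (Fin n) k] B) (j : ℕ) :
    C ⊗[MvPolynomial (Fin n) k] MvPowerSeries (Fin n) k →ₐ[MvPolynomial (Fin n) k] (B ⧸ M ^ j) :=
  Algebra.TensorProduct.productMap ((Ideal.Quotient.mkₐ (MvPolynomial (Fin n) k) (M ^ j)).comp f)
    (theta M hM j)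

theorem Theta_tmul (f : C →ₐ[MvPolynomial (Fin n) k] B) (j : ℕ) (c : C)
    (s : MvPowerSeries (Fin n) k) : Theta M hM f j (c ⊗ₜ s) =
    Ideal.Quotient.mk (M ^ j) (f c) * theta M hM j s := rfl

theorem Theta_algebraMap (f : C →ₐ[MvPolynomial (Fin n) k] B) (j : ℕ) (c : C) :
    Theta M hM f j (algebraMap C _ c) = Ideal.Quotient.mk (M ^ j) (f c) := by
  rw [Algebra.TensorProduct.algebraMap_apply, Theta_tmul, map_one, mul_one]
  rfl

/-- compatibility of `Theta j` and `Theta 1` -/
theorem factor_Theta (f : C →ₐ[MvPolynomial (Fin n) k] B) (j : ℕ) (hj : 1 ≤ j)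
    (t : C ⊗[MvPolynomial (Fin n) k] MvPowerSeries (Fin n) k) :
    Ideal.Quotient.factor (Ideal.pow_le_pow_right hj : M ^ j ≤ M ^ 1) (Theta M hM f j t) =
      Theta M hM f 1 t := by
  induction t using TensorProduct.induction_on with
  | zero => simp
  | tmul c s =>
    rw [Theta_tmul, Theta_tmul, map_mul, theta_apply, theta_apply, Ideal.Quotient.factor_mk,
      Ideal.Quotient.factor_mk]
    congr 1
    rw [Ideal.Quotient.eq, ← map_sub]
    apply map_pow_le M hM
    exact MvPowerSeries.truncTotal_sub_truncTotal_mem_pow_idealOfVars hj le_rfl s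
  | add x y hx hy => rw [map_add, map_add, hx, hy, map_add]

/-- an idempotent killed by `Theta 1` is killed by all `Theta j` -/
theorem Theta_idem (f : C →ₐ[MvPolynomial (Fin n) k] B) (j : ℕ)
    (e : C ⊗[MvPolynomial (Fin n) k] MvPowerSeries (Fin n) k) (he : e * e = e)
    (h1 : Theta M hM f 1 e = 0) : Theta M hM f j e = 0 := by
  rcases Nat.eq_zero_or_pos j with rfl | hj
  · have : Subsingleton (B ⧸ M ^ 0) := by
      rw [Ideal.Quotient.subsingleton_iff]; simp
    exact Subsingleton.elim _ _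
  · obtain ⟨b, hb⟩ := Ideal.Quotient.mk_surjective (Theta M hM f j e)
    have h2 := factor_Theta M hM f j hj e
    rw [h1, ← hb, Ideal.Quotient.factor_mk, Ideal.Quotient.eq_zero_iff_mem, pow_one] at h2
    have h3 : e ^ j = e := by
      obtain ⟨i, rfl⟩ := Nat.exists_eq_succ_of_ne_zero hj.ne'
      exact IsIdempotentElem.pow_succ_eq i he
    rw [← h3, map_pow, ← hb, ← map_pow, Ideal.Quotient.eq_zero_iff_mem]
    exact Ideal.pow_mem_pow h2 j

end theta

/-- **local step**, modulo facts on power series -/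
theorem core_aux {k : Type} [Field k] [CharZero k] {n : ℕ} {C B : Type}
    [CommRing C] [IsDomain C] [IsNoetherianRing C] [IsIntegrallyClosed C]
    [Algebra (MvPolynomial (Fin n) k) C] [Module.Finite (MvPolynomial (Fin n) k) C]
    [CommRing B] [Algebra (MvPolynomial (Fin n) k) B]
    (hinj : Function.Injective (algebraMap (MvPolynomial (Fin n) k) C))
    (f : C →ₐ[MvPolynomial (Fin n) k] B) (M : Ideal B)
    (hM : ∀ p ∈ idealOfVars (Fin n) k, algebraMap (MvPolynomial (Fin n) k) B p ∈ M)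
    (htop : ∀ l : ℕ, ∃ j : ℕ, ∀ p : MvPolynomial (Fin n) k,
      algebraMap (MvPolynomial (Fin n) k) B p ∈ M ^ j → p ∈ idealOfVars (Fin n) k ^ l)
    [IsDomain (MvPowerSeries (Fin n) k)] [IsIntegrallyClosed (MvPowerSeries (Fin n) k)]
    [Module.Flat (MvPolynomial (Fin n) k) (MvPowerSeries (Fin n) k)]
    (hsq : ∀ g : MvPolynomial (Fin n) k, Prime g → ∀ f : MvPowerSeries (Fin n) k,
      algebraMap (MvPolynomial (Fin n) k) (MvPowerSeries (Fin n) k) g ∣ f ^ 2 →
      algebraMap (MvPolynomial (Fin n) k) (MvPowerSeries (Fin n) k) g ∣ f)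
    (c s : C) (H : ∀ j : ℕ, ∃ a : C, f (c - s * a) ∈ M ^ j) :
    ∃ b : C, f b ∉ M ∧ s ∣ b * c := by
  classical
  have hinjS : Function.Injective (algebraMap (MvPolynomial (Fin n) k)
      (MvPowerSeries (Fin n) k)) := MvPolynomial.coe_injective _ _
  -- the ideal N∞
  let Ninf : Ideal (C ⊗[MvPolynomial (Fin n) k] MvPowerSeries (Fin n) k) :=
    ⨅ j, RingHom.ker (Theta M hM f j)
  have hNmem : ∀ t, t ∈ Ninf ↔ ∀ j, Theta M hM f j t = 0 := by
    intro t; simp only [Ninf, Ideal.mem_iInf, RingHom.mem_ker]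
  have hN0 : ∀ σ : MvPowerSeries (Fin n) k, (1 : C) ⊗ₜ[MvPolynomial (Fin n) k] σ ∈ Ninf → σ = 0 := by
    intro σ hσ
    rw [hNmem] at hσ
    ext d
    rw [MvPowerSeries.coeff_zero]
    let l := d.degree + 1
    obtain ⟨j0, hj0⟩ := htop l
    let j := max j0 l
    have h1 := hσ j
    rw [Theta_tmul, map_one, map_one, one_mul, theta_apply, Ideal.Quotient.eq_zero_iff_mem] at h1
    have h2 := hj0 _ (Ideal.pow_le_pow_right (le_max_left j0 l) h1)
    rw [mem_pow_idealOfVars_iff'] at h2
    have h3 := h2 d (Nat.lt_succ_self _)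
    rwa [MvPowerSeries.coeff_truncTotal] at h3
    exact lt_of_lt_of_le (Nat.lt_succ_self _) (le_max_right j0 l)
  -- the prime N
  let ι : MvPowerSeries (Fin n) k →+* C ⊗[MvPolynomial (Fin n) k] MvPowerSeries (Fin n) k :=
    (Algebra.TensorProduct.includeRight : MvPowerSeries (Fin n) k →ₐ[MvPolynomial (Fin n) k]
      C ⊗[MvPolynomial (Fin n) k] MvPowerSeries (Fin n) k).toRingHom
  obtain ⟨N, hNp, hNle, hNd⟩ := Ideal.exists_le_prime_disjoint Ninf
    ((nonZeroDivisors (MvPowerSeries (Fin n) k)).map ι) (by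
      rw [Set.disjoint_left]
      rintro _ hx ⟨σ, hσ, rfl⟩
      exact nonZeroDivisors.ne_zero hσ (hN0 σ hx))
  have hNσ : ∀ σ : MvPowerSeries (Fin n) k, (1 : C) ⊗ₜ[MvPolynomial (Fin n) k] σ ∈ N → σ = 0 := by
    intro σ hσ
    by_contra h0
    exact Set.disjoint_left.mp hNd hσ ⟨σ, mem_nonZeroDivisors_of_ne_zero h0, rfl⟩
  obtain ⟨e, hee, he1, he0⟩ := exists_idempotent (k := k) hinj hinjS hsq N hNσ
  have hTe : Theta M hM f 1 e ≠ 0 := by
    intro h
    have h1 : e ∈ Ninf := by
      rw [hNmem]; exact fun j => Theta_idem M hM f j e hee h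
    exact hNp.ne_top (by
      rw [Ideal.eq_top_iff_one]
      have := N.add_mem he1 (hNle h1)
      simpa using this)
  -- coherent approximations
  let U : ℕ → Submodule (MvPolynomial (Fin n) k) C := fun j =>
    ((M ^ j).comap ((f : C →+* B).comp (RingHom.id C))).restrictScalars _ |>.comap
      (LinearMap.mulLeft (MvPolynomial (Fin n) k) s)
  have hUmem : ∀ j a, a ∈ U j ↔ f (s * a) ∈ M ^ j := fun j a => Iff.rfl
  obtain ⟨x, hxS, hxd⟩ := exists_coherent (k := k) (n := n) (N := C)
    (fun j => {a | f (c - s * a) ∈ M ^ j}) U H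
    (fun j a ha => Ideal.pow_le_pow_right (Nat.le_succ j) ha)
    (fun j a ha => Ideal.pow_le_pow_right (Nat.le_succ j) ha)
    (by
      intro j a ha b hb
      rw [hUmem]
      have : s * (a - b) = (c - s * b) - (c - s * a) := by ring
      rw [this, map_sub]
      exact Ideal.sub_mem _ hb ha)
    (by
      intro j a ha u hu
      rw [hUmem] at hu
      change f (c - s * (a + u)) ∈ M ^ j
      have : c - s * (a + u) = (c - s * a) - s * u := by ring
      rw [this, map_sub]
      exact Ideal.sub_mem _ ha hu)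
  -- generators
  obtain ⟨r, g, hg⟩ := Module.Finite.exists_fin (R := MvPolynomial (Fin n) k) (M := C)
  have hp : ∀ l, ∃ p : Fin r → MvPolynomial (Fin n) k, (∀ i, p i ∈ (idealOfVars (Fin n) k) ^ l) ∧
      x (l + 1) - x l = ∑ i, p i • g i := by
    intro l
    have h1 := hxd l
    rw [← hg, Submodule.mem_ideal_smul_span_iff_exists_sum] at h1
    obtain ⟨a, ha, hsum⟩ := h1
    refine ⟨fun i => a i, ha, ?_⟩
    rw [← hsum, Finsupp.sum_fintype]
    simp
  choose p hpm hpx using hp
  -- the limits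
  let σ : Fin r → MvPowerSeries (Fin n) k := fun i d =>
    ∑ l ∈ Finset.range (d.degree + 1), (p l i).coeff d
  have hσ : ∀ j i, theta M hM j (σ i) = Ideal.Quotient.mk (M ^ j)
      (algebraMap (MvPolynomial (Fin n) k) B (∑ l ∈ Finset.range j, p l i)) := by
    intro j i
    rw [theta_apply, Ideal.Quotient.eq, ← map_sub]
    apply map_pow_le M hM
    rw [mem_pow_idealOfVars_iff']
    intro d hd
    rw [coeff_sub, MvPowerSeries.coeff_truncTotal _ hd, coeff_sum, sub_eq_zero]
    have h1 : MvPowerSeries.coeff d (σ i) = ∑ l ∈ Finset.range (d.degree + 1), (p l i).coeff d := rfl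
    rw [h1]
    apply Finset.sum_subset
    · intro l hl
      rw [Finset.mem_range] at hl ⊢
      omega
    · intro l _ hl
      rw [Finset.mem_range] at hl
      exact (mem_pow_idealOfVars_iff' l (p l i)).mp (hpm l i) d (by omega)
  let t : C ⊗[MvPolynomial (Fin n) k] MvPowerSeries (Fin n) k :=
    algebraMap C _ (x 0) + ∑ i, g i ⊗ₜ σ i
  have hxj : ∀ j, x j = x 0 + ∑ i, (∑ l ∈ Finset.range j, p l i) • g i := by
    intro j
    induction j with
    | zero => simp
    | succ j ih =>
      have h1 : x (j + 1) = x j + ∑ i, p j i • g i := by rw [← hpx]; ring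
      rw [h1, ih, add_assoc, ← Finset.sum_add_distrib]
      congr 1
      apply Finset.sum_congr rfl
      intro i _
      rw [Finset.sum_range_succ, add_smul]
  have hTt : ∀ j, Theta M hM f j t = Ideal.Quotient.mk (M ^ j) (f (x j)) := by
    intro j
    simp only [t]
    rw [map_add, Theta_algebraMap, map_sum, hxj j, map_add, map_sum, map_add, map_sum]
    congr 1
    apply Finset.sum_congr rfl
    intro i _
    rw [Theta_tmul, hσ, ← map_mul, map_smul, Algebra.smul_def, mul_comm]
  have hker : algebraMap C _ c - algebraMap C _ s * t ∈ Ninf := by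
    rw [hNmem]
    intro j
    rw [map_sub, map_mul, Theta_algebraMap, Theta_algebraMap, hTt, ← map_mul, ← map_sub, ← map_mul,
      ← map_sub, Ideal.Quotient.eq_zero_iff_mem]
    exact hxS j
  have hec := he0 _ (hNle hker)
  rw [mul_sub, sub_eq_zero] at hec
  have hrel : algebraMap C (C ⊗[MvPolynomial (Fin n) k] MvPowerSeries (Fin n) k) c * e =
      algebraMap C _ s * (e * t) := by
    rw [mul_comm _ e, hec]; ring
  have hspan := flat_relation c s e (e * t) hrel
  by_contra hcon
  push Not at hcon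
  apply hTe
  refine Submodule.span_induction ?_ (map_zero _) ?_ ?_ hspan
  · rintro _ ⟨b, hb, rfl⟩
    rw [Theta_algebraMap, Ideal.Quotient.eq_zero_iff_mem, pow_one]
    by_contra hbM
    exact hcon b hbM (by rw [mul_comm]; exact hb)
  · intro a b _ _ ha hb
    rw [map_add, ha, hb, add_zero]
  · intro a b _ hb
    rw [smul_eq_mul, map_mul, hb, mul_zero]

end Pool.Agent.Helper33.Ret
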