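import Mathlib

open MvPolynomial

namespace Pool.Agent.Helper33.Ret

/-- (M3) flatness -/
theorem flat_mvPowerSeries (k : Type) [Field k] (n : ℕ) :
    Module.Flat (MvPolynomial (Fin n) k) (MvPowerSeries (Fin n) k) :=
  Module.Flat.of_linearEquiv (MvPowerSeries.toAdicCompletionAlgEquiv (Fin n) k).toLinearEquiv

end Pool.Agent.Helper33.Ret
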