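import Mathlib

/-! # Power series rings over a field are (completely) integrally closed -/

namespace Pool.Agent.Helper33.Ret

/-- elementary form of complete integral closedness of a domain -/
def CIC (R : Type*) [CommRing R] : Prop :=
  ∀ a b c : R, c ≠ 0 → b ≠ 0 → (∀ n : ℕ, b ^ n ∣ c * a ^ n) → b ∣ a

theorem CIC.of_field (k : Type*) [Field k] : CIC k := by
  intro a b c _ hb _
  exact ⟨b⁻¹ * a, by field_simp⟩

theorem CIC.of_ringEquiv {R S : Type*} [CommRing R] [CommRing S] (e : R ≃+* S) (h : CIC S) :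
    CIC R := by
  intro a b c hc hb H
  have h1 : e b ∣ e a := by
    refine h (e a) (e b) (e c) ?_ ?_ ?_
    · simpa using hc
    · simpa using hb
    · intro n
      have := map_dvd e (H n)
      simpa using this
  have := map_dvd e.symm h1
  simpa using this

theorem CIC.isIntegrallyClosed {R : Type*} [CommRing R] [IsDomain R] (h : CIC R) :
    IsIntegrallyClosed R := by
  rw [isIntegrallyClosed_iff (FractionRing R)]
  intro x hx
  obtain ⟨a, b, hb, rfl⟩ := IsFractionRing.div_surjective R x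
  have hfg := hx.fg_adjoin_singleton
  obtain ⟨c, hc, H⟩ := FractionalIdeal.isFractional_of_fg (S := nonZeroDivisors R) hfg
  have hb0 : b ≠ 0 := nonZeroDivisors.ne_zero hb
  have hc0 : c ≠ 0 := nonZeroDivisors.ne_zero hc
  have hbK : algebraMap R (FractionRing R) b ≠ 0 := by
    rw [Ne, FaithfulSMul.algebraMap_eq_zero_iff]; exact hb0
  have hdvd : b ∣ a := by
    refine h a b c hc0 hb0 (fun n => ?_)
    obtain ⟨r, hr⟩ := H ((algebraMap R (FractionRing R) a / algebraMap R (FractionRing R) b) ^ n)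
      (Subalgebra.pow_mem _ (Algebra.self_mem_adjoin_singleton R _) n)
    refine ⟨r, ?_⟩
    apply FaithfulSMul.algebraMap_injective R (FractionRing R)
    rw [map_mul, map_mul, map_pow, map_pow, hr, Algebra.smul_def, div_pow]
    field_simp
  obtain ⟨y, rfl⟩ := hdvd
  refine ⟨y, ?_⟩
  rw [map_mul, mul_div_cancel_left₀ _ hbK]

open PowerSeries

section PS

variable {R : Type*} [CommRing R] [IsDomain R]

theorem CIC.step (hR : CIC R) {b c : R⟦X⟧} (hb : constantCoeff b ≠ 0)
    (hc : constantCoeff c ≠ 0) (a : R⟦X⟧) (h : ∀ n : ℕ, b ^ n ∣ c * a ^ n) :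
    ∃ q : R, ∃ a₁ : R⟦X⟧, a = b * C q + X * a₁ ∧ ∀ n : ℕ, b ^ n ∣ c * a₁ ^ n := by
  have h0 : constantCoeff b ∣ constantCoeff a := by
    refine hR _ _ _ hc hb (fun n => ?_)
    have := map_dvd (constantCoeff (R := R)) (h n)
    simpa using this
  obtain ⟨q, hq⟩ := h0
  have hX : (X : R⟦X⟧) ∣ a - b * C q := by
    rw [X_dvd_iff]
    simp [hq]
  obtain ⟨a₁, ha₁⟩ := hX
  refine ⟨q, a₁, by rw [← ha₁]; ring, fun n => ?_⟩
  have hXb : ¬ (X : R⟦X⟧) ∣ b ^ n := by
    rw [X_dvd_iff, map_pow]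
    exact pow_ne_zero _ hb
  have hbin : b ^ n ∣ c * (a + -(b * C q)) ^ n := by
    rw [add_pow, Finset.mul_sum]
    refine Finset.dvd_sum (fun i hi => ?_)
    have hi' : i ≤ n := Nat.lt_succ_iff.mp (Finset.mem_range.mp hi)
    obtain ⟨t, ht⟩ := h i
    refine ⟨t * (-(C q)) ^ (n - i) * (n.choose i : R⟦X⟧), ?_⟩
    calc c * (a ^ i * (-(b * C q)) ^ (n - i) * (n.choose i : R⟦X⟧))
        = (c * a ^ i) * (b * (-(C q))) ^ (n - i) * (n.choose i : R⟦X⟧) := by
          rw [show -(b * C q) = b * (-(C q)) by ring]; ring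
      _ = (b ^ i * t) * (b ^ (n - i) * (-(C q)) ^ (n - i)) * (n.choose i : R⟦X⟧) := by
          rw [ht, mul_pow]
      _ = (b ^ i * b ^ (n - i)) * (t * (-(C q)) ^ (n - i) * (n.choose i : R⟦X⟧)) := by ring
      _ = b ^ n * (t * (-(C q)) ^ (n - i) * (n.choose i : R⟦X⟧)) := by
          rw [← pow_add, Nat.add_sub_cancel' hi']
  rw [← sub_eq_add_neg, ha₁] at hbin
  obtain ⟨t, ht⟩ := hbin
  have hXt : (X : R⟦X⟧) ^ n ∣ t := by
    refine (X_prime (R := R)).pow_dvd_of_dvd_mul_left n hXb ?_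
    refine ⟨c * a₁ ^ n, ?_⟩
    rw [← ht]; ring
  obtain ⟨t', rfl⟩ := hXt
  refine ⟨t', ?_⟩
  have hXn : (X : R⟦X⟧) ^ n ≠ 0 := pow_ne_zero _ X_ne_zero
  apply mul_left_cancel₀ hXn
  calc (X : R⟦X⟧) ^ n * (c * a₁ ^ n) = c * (X * a₁) ^ n := by ring
    _ = b ^ n * (X ^ n * t') := ht
    _ = X ^ n * (b ^ n * t') := by ring

theorem CIC.core (hR : CIC R) {b c : R⟦X⟧} (hb : constantCoeff b ≠ 0)
    (hc : constantCoeff c ≠ 0) (a : R⟦X⟧) (h : ∀ n : ℕ, b ^ n ∣ c * a ^ n) : b ∣ a := by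
  classical
  let S := {a : R⟦X⟧ // ∀ n : ℕ, b ^ n ∣ c * a ^ n}
  have H : ∀ s : S, ∃ q : R, ∃ s' : S, (s : R⟦X⟧) = b * C q + X * (s' : R⟦X⟧) := by
    rintro ⟨s, hs⟩
    obtain ⟨q, a₁, h1, h2⟩ := hR.step hb hc s hs
    exact ⟨q, ⟨a₁, h2⟩, h1⟩
  choose q nxt hq using H
  let w : S → R⟦X⟧ := fun s => PowerSeries.mk (fun i => q (nxt^[i] s))
  have hw : ∀ s, w s = C (q s) + X * w (nxt s) := by
    intro s
    ext i
    cases i with
    | zero => simp [w]
    | succ i => simp [w, coeff_succ_X_mul]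
  have key : ∀ N : ℕ, ∀ s : S, (X : R⟦X⟧) ^ N ∣ (s : R⟦X⟧) - b * w s := by
    intro N
    induction N with
    | zero => intro s; simp
    | succ N ih =>
      intro s
      obtain ⟨t, ht⟩ := ih (nxt s)
      refine ⟨t, ?_⟩
      rw [hw s]
      calc (s : R⟦X⟧) - b * (C (q s) + X * w (nxt s))
          = (b * C (q s) + X * (nxt s : R⟦X⟧)) - b * (C (q s) + X * w (nxt s)) := by rw [← hq s]
        _ = X * ((nxt s : R⟦X⟧) - b * w (nxt s)) := by ring
        _ = X ^ (N + 1) * t := by rw [ht]; ring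
  refine ⟨w ⟨a, h⟩, ?_⟩
  rw [← sub_eq_zero]
  ext i
  have := (X_pow_dvd_iff.mp (key (i + 1) ⟨a, h⟩)) i (Nat.lt_succ_self i)
  simpa using this

theorem CIC.powerSeries (hR : CIC R) : CIC R⟦X⟧ := by
  intro a b c hc hb H
  by_cases ha : a = 0
  · rw [ha]; exact dvd_zero b
  have hb' : constantCoeff (divXPowOrder b) ≠ 0 := by
    rw [Ne, constantCoeff_divXPowOrder_eq_zero_iff]; exact hb
  have hc' : constantCoeff (divXPowOrder c) ≠ 0 := by
    rw [Ne, constantCoeff_divXPowOrder_eq_zero_iff]; exact hc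
  have h1 : divXPowOrder b ∣ divXPowOrder a := by
    refine hR.core hb' hc' _ (fun n => ?_)
    obtain ⟨t, ht⟩ := H n
    refine ⟨divXPowOrder t, ?_⟩
    have := congrArg divXPowOrder ht
    rwa [divXPowOrder_mul, divXPowOrder_mul, divXPowOrder_pow, divXPowOrder_pow] at this
  have h2 : b.order.toNat ≤ a.order.toNat := by
    by_contra hlt
    push Not at hlt
    obtain ⟨t, ht⟩ := H (c.order.toNat + 1)
    have ht0 : t ≠ 0 := by
      rintro rfl
      rw [mul_zero] at ht
      exact mul_ne_zero hc (pow_ne_zero _ ha) ht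
    have h3 := congrArg order ht
    rw [order_mul, order_mul, order_pow, order_pow, ← coe_toNat_order hc, ← coe_toNat_order ha,
      ← coe_toNat_order hb, ← coe_toNat_order ht0] at h3
    have h4 : c.order.toNat + (c.order.toNat + 1) * a.order.toNat
        = (c.order.toNat + 1) * b.order.toNat + t.order.toNat := by
      simp only [nsmul_eq_mul] at h3
      exact_mod_cast h3
    nlinarith
  obtain ⟨q, hq⟩ := h1
  refine ⟨X ^ (a.order.toNat - b.order.toNat) * q, ?_⟩
  calc a = X ^ a.order.toNat * divXPowOrder a := X_pow_order_mul_divXPowOrder.symm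
    _ = X ^ (b.order.toNat + (a.order.toNat - b.order.toNat)) * (divXPowOrder b * q) := by
        rw [hq, Nat.add_sub_cancel' h2]
    _ = (X ^ b.order.toNat * divXPowOrder b) * (X ^ (a.order.toNat - b.order.toNat) * q) := by
        rw [pow_add]; ring
    _ = b * (X ^ (a.order.toNat - b.order.toNat) * q) := by rw [X_pow_order_mul_divXPowOrder]

end PS

theorem isDomain_mvPowerSeries (k : Type) [Field k] (n : ℕ) :
    IsDomain (MvPowerSeries (Fin n) k) :=
  NoZeroDivisors.to_isDomain _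

theorem CIC.mvPowerSeries (k : Type) [Field k] (n : ℕ) : CIC (MvPowerSeries (Fin n) k) := by
  induction n with
  | zero => exact CIC.of_ringEquiv (MvPowerSeries.isEmptyEquiv (Fin 0) k).toRingEquiv (CIC.of_field k)
  | succ n ih =>
    have := isDomain_mvPowerSeries k n
    exact CIC.of_ringEquiv (MvPowerSeries.finSuccEquiv k n).toRingEquiv ih.powerSeries

/-- (M1) power series over a field are integrally closed -/
theorem mvPowerSeries_isIntegrallyClosed (k : Type) [Field k] (n : ℕ) :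
    IsIntegrallyClosed (MvPowerSeries (Fin n) k) := by
  have := isDomain_mvPowerSeries k n
  exact (CIC.mvPowerSeries k n).isIntegrallyClosed

end Pool.Agent.Helper33.Ret
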