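import Mathlib
import Pool.Agent.Helper33.Ret.PSNormal
import Pool.Agent.Helper33.Ret.NormLemma
import Pool.Agent.Helper33.Ret.PSFlat

/-! # Prime polynomials stay square-free in the power series ring (characteristic 0) -/

open MvPolynomial

namespace Pool.Agent.Helper33.Ret

/-- the colon ideal `(g : h)` -/
def colonIdeal {D : Type*} [CommRing D] (g h : D) : Ideal D where
  carrier := {x | g ∣ h * x}
  zero_mem' := by simp
  add_mem' := by
    intro a b ha hb
    simp only [Set.mem_ofPred_eq, mul_add] at *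
    exact dvd_add ha hb
  smul_mem' := by
    intro c x hx
    simp only [Set.mem_ofPred_eq, smul_eq_mul] at *
    rw [mul_left_comm]
    exact Dvd.dvd.mul_left hx c

theorem mem_colonIdeal {D : Type*} [CommRing D] {g h x : D} :
    x ∈ colonIdeal g h ↔ g ∣ h * x := Iff.rfl

/-- a maximal proper colon ideal `(g : f u)` is prime -/
theorem exists_prime_colon {D : Type*} [CommRing D] [IsNoetherianRing D] {g f : D}
    (hf : ¬ g ∣ f) : ∃ u : D, ¬ g ∣ f * u ∧ (colonIdeal g (f * u)).IsPrime := by
  let S : Set (Ideal D) := {I | ∃ u : D, ¬ g ∣ f * u ∧ I = colonIdeal g (f * u)}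
  have hS : S.Nonempty := ⟨colonIdeal g (f * 1), 1, by simpa using hf, rfl⟩
  obtain ⟨I, hIS, hmax⟩ := set_has_maximal_iff_noetherian.mpr ‹IsNoetherianRing D› S hS
  obtain ⟨u, hu, rfl⟩ := hIS
  refine ⟨u, hu, ?_, ?_⟩
  · intro htop
    have h1 : (1 : D) ∈ colonIdeal g (f * u) := htop ▸ Submodule.mem_top
    rw [mem_colonIdeal, mul_one] at h1
    exact hu h1
  · intro x y hxy
    by_contra hcon
    push Not at hcon
    obtain ⟨hx, hy⟩ := hcon
    have hux : ¬ g ∣ f * (u * x) := by
      rw [← mul_assoc]; exact hx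
    have hle : colonIdeal g (f * u) ≤ colonIdeal g (f * (u * x)) := by
      intro z hz
      rw [mem_colonIdeal] at *
      have : f * (u * x) * z = f * u * z * x := by ring
      rw [this]
      exact Dvd.dvd.mul_right hz x
    have hlt : colonIdeal g (f * u) < colonIdeal g (f * (u * x)) := by
      refine lt_of_le_of_ne hle (fun heq => hy ?_)
      rw [heq, mem_colonIdeal]
      rw [mem_colonIdeal] at hxy
      have : f * (u * x) * y = f * u * (x * y) := by ring
      rwa [this]
    exact hmax _ ⟨u * x, hux, rfl⟩ hlt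

/-- consequence of flatness: a polynomial not divisible by the prime `g` is a nonzerodivisor
modulo `g` in a flat algebra -/
theorem dvd_of_dvd_mul_flat {P D : Type*} [CommRing P] [CommRing D] [Algebra P D]
    [Module.Flat P D] {g d : P} (hg : Prime g) (hd : ¬ g ∣ d) {h : D}
    (H : algebraMap P D g ∣ h * algebraMap P D d) : algebraMap P D g ∣ h := by
  obtain ⟨q, hq⟩ := H
  have hrel : ∑ i : Fin 2, (![d, -g] : Fin 2 → P) i • (![h, q] : Fin 2 → D) i = 0 := by
    simp only [Fin.sum_univ_two, Matrix.cons_val_zero, Matrix.cons_val_one]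
    rw [Algebra.smul_def, Algebra.smul_def, map_neg, mul_comm, hq]
    ring
  obtain ⟨m, a, y, hxy, haf⟩ := Module.Flat.isTrivialRelation_of_sum_smul_eq_zero
    (R := P) (M := D) (f := (![d, -g] : Fin 2 → P)) (x := (![h, q] : Fin 2 → D)) hrel
  have hh : h = ∑ j, a 0 j • y j := by simpa using hxy 0
  rw [hh]
  refine Finset.dvd_sum (fun j _ => ?_)
  have h2 := haf j
  simp only [Fin.sum_univ_two, Matrix.cons_val_zero, Matrix.cons_val_one] at h2
  have h3 : g ∣ d * a 0 j := ⟨a 1 j, by linear_combination h2⟩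
  have h4 : g ∣ a 0 j := (hg.dvd_or_dvd h3).resolve_left hd
  rw [Algebra.smul_def]
  exact Dvd.dvd.mul_right (map_dvd (algebraMap P D) h4) _

/-- a prime polynomial in characteristic zero does not divide all its partial derivatives -/
theorem exists_pderiv_not_dvd (k : Type*) [Field k] [CharZero k] {σ : Type*}
    {g : MvPolynomial σ k} (hg : Prime g) : ∃ i, ¬ g ∣ pderiv i g := by
  classical
  by_contra hcon
  push Not at hcon
  have hg0 : g ≠ 0 := hg.ne_zero
  -- `g` is not constant
  have hm : ∃ m ∈ g.support, m ≠ 0 := by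
    by_contra hall
    push Not at hall
    have hC : g = C (coeff 0 g) := by
      ext m
      rw [coeff_C]
      split_ifs with h
      · rw [← h]
      · by_contra hne
        exact h (hall m (mem_support_iff.mpr hne)).symm
    have hc0 : coeff 0 g ≠ 0 := by
      intro h0
      rw [h0, C_0] at hC
      exact hg0 hC
    apply hg.not_isUnit
    rw [hC]
    exact (isUnit_iff_ne_zero.mpr hc0).map C
  obtain ⟨m, hmS, hm0⟩ := hm
  obtain ⟨i, hi⟩ : ∃ i, m i ≠ 0 := by
    by_contra hall
    push Not at hall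
    exact hm0 (Finsupp.ext hall)
  have hgm : coeff m g ≠ 0 := mem_support_iff.mp hmS
  -- the derivative is nonzero
  have hd0 : pderiv i g ≠ 0 := by
    intro h0
    have h1 : coeff (m - Finsupp.single i 1) (pderiv i g) = 0 := by rw [h0]; simp
    rw [coeff_pderiv] at h1
    have h2 : m - Finsupp.single i 1 + Finsupp.single i 1 = m := by
      ext j
      simp only [Finsupp.add_apply, Finsupp.tsub_apply, Finsupp.single_apply]
      split_ifs with h
      · subst h; omega
      · omega
    rw [h2] at h1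
    rcases mul_eq_zero.mp h1 with h3 | h3
    · exact hgm h3
    · have : (((m - Finsupp.single i 1 : σ →₀ ℕ) i + 1 : ℕ) : k) = 0 := by
        push_cast; exact h3
      exact Nat.succ_ne_zero _ (Nat.cast_eq_zero.mp this)
  -- degrees
  obtain ⟨t, ht⟩ := hcon i
  have ht0 : t ≠ 0 := by
    rintro rfl
    rw [mul_zero] at ht
    exact hd0 ht
  have hdeg : degreeOf i (pderiv i g) = degreeOf i g + degreeOf i t := by
    rw [ht, degreeOf_mul_eq hg0 ht0]
  have hdpos : 0 < degreeOf i g := by
    have : m i ≤ degreeOf i g := by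
      exact (degreeOf_le_iff.mp le_rfl) m hmS
    omega
  have hlt : degreeOf i (pderiv i g) < degreeOf i g := by
    rw [degreeOf_lt_iff hdpos]
    intro m' hm'
    have h1 : coeff m' (pderiv i g) ≠ 0 := mem_support_iff.mp hm'
    rw [coeff_pderiv] at h1
    have h2 : coeff (m' + Finsupp.single i 1) g ≠ 0 := left_ne_zero_of_mul h1
    have h3 := (degreeOf_le_iff.mp (le_refl (degreeOf i g))) _ (mem_support_iff.mpr h2)
    simp only [Finsupp.add_apply, Finsupp.single_eq_same] at h3
    omega
  omega

/-- (M4) prime polynomials stay square-free in the power series ring -/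
theorem dvd_of_dvd_sq (k : Type) [Field k] [CharZero k] (n : ℕ)
    (g : MvPolynomial (Fin n) k) (hg : Prime g) (f : MvPowerSeries (Fin n) k)
    (h : (g : MvPowerSeries (Fin n) k) ∣ f ^ 2) : (g : MvPowerSeries (Fin n) k) ∣ f := by
  classical
  have hdom := isDomain_mvPowerSeries k n
  have hic := mvPowerSeries_isIntegrallyClosed k n
  have hflat := flat_mvPowerSeries k n
  by_contra hf
  obtain ⟨u, hu, hprime⟩ := exists_prime_colon hf
  set G : MvPowerSeries (Fin n) k := (g : MvPowerSeries (Fin n) k) with hG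
  set H : MvPowerSeries (Fin n) k := f * u with hH
  have hG0 : G ≠ 0 := by
    rw [hG]
    intro h0
    exact hg.ne_zero (MvPolynomial.coe_injective (Fin n) k (by simpa using h0))
  have hHQ : H ∈ colonIdeal G H := by
    rw [mem_colonIdeal]
    have : H * H = f ^ 2 * u ^ 2 := by rw [hH]; ring
    rw [this]
    exact Dvd.dvd.mul_right h _
  have hGQ : G ∈ colonIdeal G H := by
    rw [mem_colonIdeal]
    exact Dvd.intro_left H rfl
  obtain ⟨p, hp, hp0, σ, hσ, hdiv⟩ :=
    exists_uniformizer (Q := colonIdeal G H) hG0 hu (fun x => mem_colonIdeal)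
  obtain ⟨g₁, hg₁⟩ := hdiv G hGQ
  obtain ⟨h₁, hh₁⟩ := hdiv H hHQ
  have hg₁Q : g₁ ∈ colonIdeal G H := by
    have : g₁ * σ ∈ colonIdeal G H := by
      rw [mem_colonIdeal]
      refine ⟨σ * h₁, ?_⟩
      calc H * (g₁ * σ) = g₁ * (σ * H) := by ring
        _ = g₁ * (p * h₁) := by rw [hh₁]
        _ = (p * g₁) * h₁ := by ring
        _ = (σ * G) * h₁ := by rw [hg₁]
        _ = G * (σ * h₁) := by ring
    exact (hprime.mem_or_mem this).resolve_right hσ
  obtain ⟨g₂, hg₂⟩ := hdiv g₁ hg₁Q
  have hsq : σ ^ 2 * G = p ^ 2 * g₂ := by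
    calc σ ^ 2 * G = σ * (σ * G) := by ring
      _ = σ * (p * g₁) := by rw [hg₁]
      _ = p * (σ * g₁) := by ring
      _ = p * (p * g₂) := by rw [hg₂]
      _ = p ^ 2 * g₂ := by ring
  -- all partial derivatives of `G` lie in the prime
  have hder : ∀ i, MvPowerSeries.pderiv k i G ∈ colonIdeal G H := by
    intro i
    have h1 := congrArg (MvPowerSeries.pderiv k i) hsq
    rw [pow_two, pow_two] at h1
    simp only [Derivation.leibniz, smul_eq_mul] at h1
    have h2 : (σ * σ) * MvPowerSeries.pderiv k i G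
        = p * (p * MvPowerSeries.pderiv k i g₂ + 2 * g₂ * MvPowerSeries.pderiv k i p)
          - G * (2 * σ * MvPowerSeries.pderiv k i σ) := by
      linear_combination h1
    have h3 : (σ * σ) * MvPowerSeries.pderiv k i G ∈ colonIdeal G H := by
      rw [h2]
      exact Ideal.sub_mem _ (Ideal.mul_mem_right _ _ hp) (Ideal.mul_mem_right _ _ hGQ)
    rcases hprime.mem_or_mem h3 with h4 | h4
    · rcases hprime.mem_or_mem h4 with h5 | h5 <;> exact absurd h5 hσ
    · exact h4
  obtain ⟨i, hi⟩ := exists_pderiv_not_dvd k hg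
  have h1 := hder i
  rw [hG, MvPowerSeries.pderiv_coe, mem_colonIdeal] at h1
  apply hu
  have h2 := dvd_of_dvd_mul_flat (D := MvPowerSeries (Fin n) k) hg hi (h := H) (by
    simpa [MvPowerSeries.algebraMap_apply'] using h1)
  simpa [MvPowerSeries.algebraMap_apply'] using h2

end Pool.Agent.Helper33.Ret
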