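import Mathlib
import Pool.Agent.Helper33.Ret.Core
import Pool.Agent.Helper33.Ret.PSReduced
import Pool.Agent.Helper33.Ret.Contract

/-! # The local step -/

open MvPolynomial

namespace Pool.Agent.Helper33.Ret

/-- residue fields of finitely generated algebras over an algebraically closed field -/
theorem exists_sub_mem {k : Type} [Field k] [IsAlgClosed k] {B : Type} [CommRing B] [Algebra k B]
    [Algebra.FiniteType k B] (M : Ideal B) [M.IsMaximal] (b : B) :
    ∃ a : k, b - algebraMap k B a ∈ M := by
  let : Field (B ⧸ M) := Ideal.Quotient.field M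
  have h1 : Module.Finite k (B ⧸ M) := finite_of_finite_type_of_isJacobsonRing k (B ⧸ M)
  obtain ⟨a, ha⟩ := (IsAlgClosed.algebraMap_bijective_of_isIntegral (k := k)
    (K := B ⧸ M)).2 (Ideal.Quotient.mk M b)
  refine ⟨a, ?_⟩
  rw [← Ideal.Quotient.eq, ← ha]
  rfl

/-- (M7) local step -/
theorem local_step {k : Type} [Field k] [IsAlgClosed k] [CharZero k] {C B : Type}
    [CommRing C] [IsDomain C] [IsIntegrallyClosed C] [Algebra k C] [Algebra.FiniteType k C]
    [CommRing B] [IsDomain B] [Algebra k B] [Algebra.FiniteType k B]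
    (f : C →ₐ[k] B) (hf : Function.Injective f) (M : Ideal B) [hMmax : M.IsMaximal] (c s : C)
    (H : ∀ j : ℕ, ∃ a : C, f (c - s * a) ∈ M ^ j) : ∃ b : C, f b ∉ M ∧ s ∣ b * c := by
  classical
  obtain ⟨n, g, hg, hgf⟩ := exists_finite_inj_algHom_of_fg k C
  have hCnoeth : IsNoetherianRing C := Algebra.FiniteType.isNoetherianRing k C
  choose a ha using fun i : Fin n => exists_sub_mem (k := k) M (f (g (X i)))
  let τ : MvPolynomial (Fin n) k →ₐ[k] MvPolynomial (Fin n) k := aeval (fun i => X i - MvPolynomial.C (a i))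
  let τ' : MvPolynomial (Fin n) k →ₐ[k] MvPolynomial (Fin n) k := aeval (fun i => X i + MvPolynomial.C (a i))
  have hττ' : τ.comp τ' = AlgHom.id k _ := by
    apply MvPolynomial.algHom_ext
    intro i
    simp [τ, τ', algebraMap_eq]
  have hτ'τ : τ'.comp τ = AlgHom.id k _ := by
    apply MvPolynomial.algHom_ext
    intro i
    simp [τ, τ', algebraMap_eq]
  have hτinj : Function.Injective τ := by
    intro x y hxy
    have := congrArg τ' hxy
    rwa [← AlgHom.comp_apply, ← AlgHom.comp_apply, hτ'τ] at this
  have hτsurj : Function.Surjective τ := by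
    intro y
    refine ⟨τ' y, ?_⟩
    rw [← AlgHom.comp_apply, hττ']; rfl
  let φ : MvPolynomial (Fin n) k →ₐ[k] C := g.comp τ
  have hφinj : Function.Injective φ := hg.comp hτinj
  have hφfin : φ.Finite := hgf.comp (AlgHom.Finite.of_surjective τ hτsurj)
  let : Algebra (MvPolynomial (Fin n) k) C := φ.toRingHom.toAlgebra
  have : Module.Finite (MvPolynomial (Fin n) k) C := hφfin
  let : Algebra (MvPolynomial (Fin n) k) B := (f.comp φ).toRingHom.toAlgebra
  let f' : C →ₐ[MvPolynomial (Fin n) k] B := { f.toRingHom with commutes' := fun _ => rfl }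
  have hX : ∀ i, f (φ (X i)) ∈ M := by
    intro i
    have h1 : φ (X i) = g (X i) - algebraMap k C (a i) := by
      simp only [φ, τ, AlgHom.comp_apply, aeval_X, map_sub]
      congr 1
      exact g.commutes (a i)
    rw [h1, map_sub, f.commutes]
    exact ha i
  have hM : ∀ p ∈ idealOfVars (Fin n) k, algebraMap (MvPolynomial (Fin n) k) B p ∈ M := by
    intro p hp
    have : idealOfVars (Fin n) k ≤ M.comap (algebraMap (MvPolynomial (Fin n) k) B) := by
      rw [idealOfVars, Ideal.span_le]
      rintro _ ⟨i, rfl⟩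
      exact hX i
    exact this hp
  have hM' : ∀ p, (f.comp φ) p ∈ M → p ∈ idealOfVars (Fin n) k := by
    intro p hp
    have h1 : p - MvPolynomial.C (constantCoeff p) ∈ idealOfVars (Fin n) k := by
      have := (mem_pow_idealOfVars_iff' (σ := Fin n) (R := k) 1 (p - MvPolynomial.C (constantCoeff p))).mpr (by
        intro x hx
        have hx0 : x = 0 := by
          rw [Nat.lt_one_iff] at hx
          exact (Finsupp.degree_eq_zero_iff x).mp hx
        subst hx0
        simp [constantCoeff_eq])
      simpa using this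
    have h2 := hM _ h1
    have h3 : (f.comp φ) (MvPolynomial.C (constantCoeff p)) ∈ M := by
      have h4 : (f.comp φ) (MvPolynomial.C (constantCoeff p)) = (f.comp φ) p - (f.comp φ) (p - MvPolynomial.C (constantCoeff p)) := by
        rw [map_sub]; ring
      rw [h4]
      exact M.sub_mem hp h2
    have h5 : (f.comp φ) (MvPolynomial.C (constantCoeff p)) = algebraMap k B (constantCoeff p) :=
      (f.comp φ).commutes _
    rw [h5] at h3
    have h6 : constantCoeff p = 0 := by
      by_contra h0
      exact hMmax.ne_top (Ideal.eq_top_of_isUnit_mem M h3 ((IsUnit.mk0 _ h0).map _))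
    rwa [h6, map_zero, sub_zero] at h1
  have : IsDomain (MvPowerSeries (Fin n) k) := isDomain_mvPowerSeries k n
  have : IsIntegrallyClosed (MvPowerSeries (Fin n) k) := mvPowerSeries_isIntegrallyClosed k n
  have : Module.Flat (MvPolynomial (Fin n) k) (MvPowerSeries (Fin n) k) := flat_mvPowerSeries k n
  exact core_aux (k := k) hφinj f' M hM
    (fun l => pow_comap_le (f.comp φ) (hf.comp hφinj) M hM' l)
    (fun g hg h hh => dvd_of_dvd_sq k n g hg h hh) c s H

end Pool.Agent.Helper33.Ret
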