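import Mathlib
import Pool.Agent.Helper33.Ret.LocalStep

/-! # The case of a domain containing a normal finitely generated subring -/

open TensorProduct

namespace Pool.Agent.Helper33.Ret

section purity
variable {A R : Type} [CommRing A] [CommRing R] [Algebra A R]

theorem retract_apply_mem (r : R →ₗ[A] A) (I : Ideal A) (x : R)
    (hx : x ∈ I.map (algebraMap A R)) : r x ∈ I := by
  have h1 : I.map (algebraMap A R) = Ideal.span (algebraMap A R '' I) := rfl
  rw [h1] at hx
  refine Submodule.span_induction (p := fun x _ => ∀ y : R, r (y * x) ∈ I) ?_ ?_ ?_ ?_ hx 1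
    |> (by simpa using ·)
  · rintro _ ⟨a, ha, rfl⟩ y
    have : y * algebraMap A R a = a • y := by rw [Algebra.smul_def, mul_comm]
    rw [this, map_smul]
    exact I.mul_mem_right _ ha
  · intro y; simp
  · intro a b _ _ ha hb y
    rw [mul_add, map_add]; exact I.add_mem (ha y) (hb y)
  · intro a b _ hb y
    rw [smul_eq_mul, ← mul_assoc]; exact hb _

/-- **purity lemma** -/
theorem exists_primes_of_retract [IsDomain A] [IsNoetherianRing R]
    (r : R →ₗ[A] A) (hr : r 1 = 1) (m : Ideal A) (hm : m.IsMaximal) :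
    ∃ (q M : Ideal R), q.IsPrime ∧ M.IsMaximal ∧ q ≤ M ∧ q.comap (algebraMap A R) = ⊥ ∧
      M.comap (algebraMap A R) = m := by
  classical
  -- torsion ideal
  let J : Ideal R :=
    { carrier := {x | ∃ a : A, a ≠ 0 ∧ a • x = 0}
      add_mem' := by
        rintro x y ⟨a, ha, hax⟩ ⟨b, hb, hby⟩
        refine ⟨a * b, mul_ne_zero ha hb, ?_⟩
        rw [smul_add, mul_comm a b, mul_smul, hax, smul_zero, mul_comm b a, mul_smul, hby,
          smul_zero, add_zero]
      zero_mem' := ⟨1, one_ne_zero, by simp⟩
      smul_mem' := by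
        rintro c x ⟨a, ha, hax⟩
        exact ⟨a, ha, by rw [smul_eq_mul, ← mul_smul_comm, hax, mul_zero]⟩ }
  -- killed by a single element
  obtain ⟨c, hc, hcJ⟩ : ∃ c : A, c ≠ 0 ∧ ∀ x ∈ J, c • x = 0 := by
    obtain ⟨s, hs⟩ := (IsNoetherian.noetherian J : J.FG)
    have hsJ : ∀ x ∈ s, ∃ a : A, a ≠ 0 ∧ a • x = 0 := by
      intro x hx
      have : x ∈ J := by rw [← hs]; exact Submodule.subset_span hx
      exact this
    choose! a ha hax using hsJ
    refine ⟨∏ x ∈ s, a x, Finset.prod_ne_zero_iff.mpr ha, ?_⟩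
    intro x hx
    rw [← hs] at hx
    refine Submodule.span_induction ?_ (smul_zero _) ?_ ?_ hx
    · intro y hy
      rw [← Finset.prod_erase_mul s a hy, mul_smul, hax y hy, smul_zero]
    · intro y z _ _ hy hz
      rw [smul_add, hy, hz, add_zero]
    · intro b y _ hy
      rw [smul_eq_mul, ← mul_smul_comm, hy, mul_zero]
  have htop : m.map (algebraMap A R) ⊔ J ≠ ⊤ := by
    intro h
    rw [Ideal.eq_top_iff_one, Submodule.mem_sup] at h
    obtain ⟨u, hu, t, ht, hut⟩ := h
    have h1 : c * r u = c := by
      have h2 : c • (1 : R) = c • u := by rw [← hut, smul_add, hcJ t ht, add_zero]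
      have h3 := congrArg r h2
      rw [map_smul, map_smul, hr, smul_eq_mul, smul_eq_mul, mul_one] at h3
      exact h3.symm
    have h2 : r u = 1 := mul_left_cancel₀ hc (by rw [h1, mul_one])
    exact hm.ne_top ((Ideal.eq_top_iff_one m).mpr (h2 ▸ retract_apply_mem r m u hu))
  obtain ⟨M, hM, hle⟩ := Ideal.exists_le_maximal _ htop
  have hMm : M.comap (algebraMap A R) = m := by
    refine (hm.eq_of_le (Ideal.comap_ne_top _ hM.ne_top) ?_).symm
    rw [← Ideal.map_le_iff_le_comap]
    exact le_sup_left.trans hle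
  obtain ⟨q, hq, -, hqd⟩ := Ideal.exists_le_prime_disjoint (⊥ : Ideal R)
    (((nonZeroDivisors A).map (algebraMap A R)) ⊔ M.primeCompl) (by
      rw [Set.disjoint_left]
      intro x hx hx'
      rw [SetLike.mem_coe, Ideal.mem_bot] at hx
      rw [SetLike.mem_coe, Submonoid.mem_sup] at hx'
      obtain ⟨_, ⟨a, ha, rfl⟩, u, hu, hau⟩ := hx'
      apply hu
      apply hle
      apply Submodule.mem_sup_right
      refine ⟨a, nonZeroDivisors.ne_zero ha, ?_⟩
      rw [Algebra.smul_def, hau, hx])
  refine ⟨q, M, hq, hM, ?_, ?_, hMm⟩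
  · intro x hx
    by_contra hxM
    exact Set.disjoint_left.mp hqd hx (Submonoid.mem_sup_right (show x ∈ M.primeCompl from hxM))
  · rw [eq_bot_iff]
    intro a ha
    rw [Ideal.mem_bot]
    by_contra ha0
    exact Set.disjoint_left.mp hqd ha (Submonoid.mem_sup_left
      ⟨a, mem_nonZeroDivisors_of_ne_zero ha0, rfl⟩)

end purity

/-- generic surjectivity -/
theorem exists_generic {C R : Type} [CommRing C] [IsDomain C] [IsNoetherianRing C] [CommRing R]
    [Algebra C R] [Algebra.FiniteType C R] (q0 : Ideal R) (hq0 : q0.IsPrime)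
    (h0 : q0.comap (algebraMap C R) = ⊥) :
    ∃ a : C, a ≠ 0 ∧ ∀ q : Ideal C, q.IsPrime → a ∉ q → ∃ Q : Ideal R, Q.IsPrime ∧
      Q.comap (algebraMap C R) = q := by
  have hfp : (algebraMap C R).FinitePresentation := by
    rw [RingHom.finitePresentation_algebraMap]
    exact Algebra.FinitePresentation.of_finiteType.mp inferInstance
  have hcons := PrimeSpectrum.isConstructible_range_comap hfp
  obtain ⟨S, hS⟩ := PrimeSpectrum.exists_constructibleSetData_iff.mpr hcons
  have hmem : (⟨⊥, Ideal.isPrime_bot⟩ : PrimeSpectrum C) ∈ S.toSet := by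
    rw [hS]
    exact ⟨⟨q0, hq0⟩, PrimeSpectrum.ext h0⟩
  simp only [PrimeSpectrum.ConstructibleSetData.toSet, Set.mem_iUnion] at hmem
  obtain ⟨D, hD, hmem⟩ := hmem
  simp only [PrimeSpectrum.BasicConstructibleSetData.toSet, Set.mem_sdiff,
    PrimeSpectrum.mem_zeroLocus] at hmem
  obtain ⟨hg, hf⟩ := hmem
  refine ⟨D.f, ?_, ?_⟩
  · intro h
    apply hf
    rintro x hx
    rw [Set.mem_singleton_iff] at hx
    rw [hx, h]
    exact Ideal.zero_mem _
  · intro q hq hfq
    have h1 : (⟨q, hq⟩ : PrimeSpectrum C) ∈ Set.range (PrimeSpectrum.comap (algebraMap C R)) := by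
      rw [← hS]
      simp only [PrimeSpectrum.ConstructibleSetData.toSet, Set.mem_iUnion]
      refine ⟨D, hD, ?_⟩
      simp only [PrimeSpectrum.BasicConstructibleSetData.toSet, Set.mem_sdiff,
        PrimeSpectrum.mem_zeroLocus]
      refine ⟨fun x hx => ?_, fun h => hfq (h (Set.mem_singleton _))⟩
      have := hg hx
      have h2 : x = 0 := this
      rw [h2]
      exact q.zero_mem
    obtain ⟨Q, hQ⟩ := h1
    exact ⟨Q.asIdeal, Q.isPrime, congrArg PrimeSpectrum.asIdeal hQ⟩

section normal
variable {k : Type} [Field k] [IsAlgClosed k] [CharZero k] {C A R : Type}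
    [CommRing C] [IsDomain C] [IsIntegrallyClosed C] [Algebra k C] [Algebra.FiniteType k C]
    [CommRing A] [IsDomain A] [Algebra k A] [CommRing R] [Algebra k R] [Algebra.FiniteType k R]
    [Algebra C A] [IsScalarTower k C A] [Algebra A R] [IsScalarTower k A R]

omit [IsDomain C] [IsIntegrallyClosed C] [IsDomain A] in
/-- approximation to any order -/
theorem approx_pow (m : Ideal C)
    (hU : ∀ a : A, ∃ c : C, a - algebraMap C A c ∈ m.map (algebraMap C A)) (j : ℕ) :
    ∀ a : A, ∃ c : C, a - algebraMap C A c ∈ (m.map (algebraMap C A)) ^ j := by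
  induction j with
  | zero => intro a; exact ⟨0, by simp⟩
  | succ j ih =>
    have key : ∀ x ∈ m.map (algebraMap C A), ∃ c : C,
        x - algebraMap C A c ∈ (m.map (algebraMap C A)) ^ (j + 1) := by
      intro x hx
      refine Submodule.span_induction (p := fun x _ => ∀ y : A, ∃ c : C,
        y * x - algebraMap C A c ∈ (m.map (algebraMap C A)) ^ (j + 1)) ?_ ?_ ?_ ?_ hx 1
        |> (by simpa using ·)
      · rintro _ ⟨b, hb, rfl⟩ y
        obtain ⟨c, hc⟩ := ih y
        refine ⟨c * b, ?_⟩
        rw [map_mul, ← sub_mul, pow_succ]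
        exact Ideal.mul_mem_mul hc (Ideal.mem_map_of_mem _ hb)
      · intro y; exact ⟨0, by simp⟩
      · intro a b _ _ ha hb y
        obtain ⟨c, hc⟩ := ha y
        obtain ⟨c', hc'⟩ := hb y
        refine ⟨c + c', ?_⟩
        have : y * (a + b) - algebraMap C A (c + c') =
          (y * a - algebraMap C A c) + (y * b - algebraMap C A c') := by rw [map_add]; ring
        rw [this]
        exact Ideal.add_mem _ hc hc'
      · intro a b _ hb y
        obtain ⟨c, hc⟩ := hb (y * a)
        exact ⟨c, by rw [smul_eq_mul, ← mul_assoc]; exact hc⟩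
    intro a
    obtain ⟨c, hc⟩ := hU a
    obtain ⟨c', hc'⟩ := key _ hc
    refine ⟨c + c', ?_⟩
    have : a - algebraMap C A (c + c') = a - algebraMap C A c - algebraMap C A c' := by
      rw [map_add]; ring
    rw [this]
    exact hc'

include k in
/-- local equality `C_m = A_m` -/
theorem local_eq (hCA : Function.Injective (algebraMap C A)) (r : R →ₗ[A] A) (hr : r 1 = 1)
    (hfrac : ∀ a : A, ∃ c s : C, s ≠ 0 ∧ algebraMap C A s * a = algebraMap C A c)
    (hU : ∀ m : Ideal C, m.IsMaximal → ∀ a : A, ∃ c : C,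
      a - algebraMap C A c ∈ m.map (algebraMap C A))
    (m : Ideal A) (hm : m.IsMaximal) (a : A) :
    ∃ b : C, algebraMap C A b ∉ m ∧ ∃ c : C, algebraMap C A b * a = algebraMap C A c := by
  have hRn : IsNoetherianRing R := Algebra.FiniteType.isNoetherianRing k R
  obtain ⟨q, M, hq, hM, hqM, hq0, hMm⟩ := exists_primes_of_retract r hr m hm
  -- `m ∩ C` is maximal
  let m0 : Ideal C := m.comap (algebraMap C A)
  have hm0 : m0.IsMaximal := by
    let : Field (R ⧸ M) := Ideal.Quotient.field M
    let φ : C →+* R ⧸ M := (Ideal.Quotient.mk M).comp ((algebraMap A R).comp (algebraMap C A))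
    have hsurj : Function.Surjective φ := by
      intro x
      obtain ⟨y, rfl⟩ := Ideal.Quotient.mk_surjective x
      obtain ⟨t, ht⟩ := exists_sub_mem (k := k) M y
      refine ⟨algebraMap k C t, ?_⟩
      simp only [φ, RingHom.comp_apply]
      rw [← IsScalarTower.algebraMap_apply k C A, ← IsScalarTower.algebraMap_apply k A R, eq_comm,
        Ideal.Quotient.eq]
      exact ht
    have h1 : m0 = RingHom.ker φ := by
      ext x
      rw [RingHom.mem_ker]
      simp only [φ, RingHom.comp_apply, m0, Ideal.mem_comap]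
      rw [Ideal.Quotient.eq_zero_iff_mem, ← hMm, Ideal.mem_comap]
    rw [h1]
    exact RingHom.ker_isMaximal_of_surjective φ hsurj
  -- the domain B
  let B := R ⧸ q
  have : IsDomain B := Ideal.Quotient.isDomain q
  let g : A →ₐ[k] B := (Ideal.Quotient.mkₐ k q).comp (IsScalarTower.toAlgHom k A R)
  have hg : Function.Injective g := by
    rw [injective_iff_map_eq_zero]
    intro x hx
    have h1 : algebraMap A R x ∈ q := Ideal.Quotient.eq_zero_iff_mem.mp hx
    have h2 : x ∈ q.comap (algebraMap A R) := h1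
    rwa [hq0] at h2
  let f : C →ₐ[k] B := g.comp (IsScalarTower.toAlgHom k C A)
  have hf : Function.Injective f := hg.comp hCA
  let MB : Ideal B := M.map (Ideal.Quotient.mk q)
  have hMB : MB.comap (Ideal.Quotient.mk q) = M := by
    rw [Ideal.comap_map_of_surjective _ Ideal.Quotient.mk_surjective]
    have : Ideal.comap (Ideal.Quotient.mk q) ⊥ = q := by
      rw [← RingHom.ker_eq_comap_bot, Ideal.mk_ker]
    rw [this, sup_eq_left]
    exact hqM
  have hMBmax : MB.IsMaximal := by
    rcases Ideal.map_eq_top_or_isMaximal_of_surjective (Ideal.Quotient.mk q)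
      Ideal.Quotient.mk_surjective hM with h | h
    · exfalso
      apply hM.ne_top
      rw [← hMB]
      change Ideal.comap _ (M.map _) = ⊤
      rw [h, Ideal.comap_top]
    · exact h
  have hgm : ∀ x ∈ m, g x ∈ MB := by
    intro x hx
    apply Ideal.mem_map_of_mem
    rw [← hMm] at hx
    exact hx
  obtain ⟨c, s, hs, hcs⟩ := hfrac a
  obtain ⟨b, hb, hsb⟩ := local_step f hf MB c s (by
    intro j
    obtain ⟨cj, hcj⟩ := approx_pow m0 (hU m0 hm0) j a
    refine ⟨cj, ?_⟩
    have h1 : algebraMap C A (c - s * cj) ∈ m ^ j := by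
      have : algebraMap C A (c - s * cj) = algebraMap C A s * (a - algebraMap C A cj) := by
        rw [map_sub, map_mul, mul_sub, hcs]
      rw [this]
      apply Ideal.mul_mem_left
      have h2 : m0.map (algebraMap C A) ≤ m := Ideal.map_comap_le
      exact Ideal.pow_right_mono h2 j hcj
    have h3 : m.map (g : A →+* B) ≤ MB := Ideal.map_le_iff_le_comap.mpr hgm
    have h4 := Ideal.mem_map_of_mem (g : A →+* B) h1
    rw [Ideal.map_pow] at h4
    exact Ideal.pow_right_mono h3 j h4)
  obtain ⟨c', hc'⟩ := hsb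
  refine ⟨b, fun h => hb (hgm _ h), c', ?_⟩
  have hsA : algebraMap C A s ≠ 0 := by
    intro h; exact hs (hCA (by rw [h, map_zero]))
  apply mul_left_cancel₀ hsA
  rw [← map_mul, ← hc', map_mul, ← hcs]
  ring

/-- (G2) -/
theorem fg_of_normal_sub
    (hCA : Function.Injective (algebraMap C A)) (r : R →ₗ[A] A) (hr : r 1 = 1)
    (hfrac : ∀ a : A, ∃ c s : C, s ≠ 0 ∧ algebraMap C A s * a = algebraMap C A c)
    (hU : ∀ m : Ideal C, m.IsMaximal → ∀ a : A, ∃ c : C,
      a - algebraMap C A c ∈ m.map (algebraMap C A)) :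
    Algebra.FiniteType k A := by
  classical
  have hRn : IsNoetherianRing R := Algebra.FiniteType.isNoetherianRing k R
  have hCn : IsNoetherianRing C := Algebra.FiniteType.isNoetherianRing k C
  have hloc := local_eq (k := k) hCA r hr hfrac hU
  -- colon ideals
  let col : A → Ideal C := fun x =>
    { carrier := {b | ∃ c : C, algebraMap C A b * x = algebraMap C A c}
      add_mem' := by
        rintro b b' ⟨c, hc⟩ ⟨c', hc'⟩
        exact ⟨c + c', by rw [map_add, add_mul, hc, hc', map_add]⟩
      zero_mem' := ⟨0, by simp⟩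
      smul_mem' := by
        rintro b b' ⟨c, hc⟩
        exact ⟨b * c, by rw [smul_eq_mul, map_mul, mul_assoc, hc, map_mul]⟩ }
  have hcol : ∀ x b, b ∈ col x ↔ ∃ c : C, algebraMap C A b * x = algebraMap C A c :=
    fun x b => Iff.rfl
  let 𝔅 : Set (Ideal C) := {q | q.IsPrime ∧ ∃ x, q = col x}
  -- generic element
  obtain ⟨a0, ha0, ha0q⟩ : ∃ a0 : C, a0 ≠ 0 ∧ ∀ q ∈ 𝔅, a0 ∈ q := by
    obtain ⟨m, hm⟩ := Ideal.exists_maximal A
    obtain ⟨q, M, hq, -, -, hq0, -⟩ := exists_primes_of_retract r hr m hm
    let : Algebra C R := ((algebraMap A R).comp (algebraMap C A)).toAlgebra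
    have : IsScalarTower C A R := IsScalarTower.of_algebraMap_eq' rfl
    have : IsScalarTower k C R := IsScalarTower.of_algebraMap_eq (fun x => by
      rw [IsScalarTower.algebraMap_apply k A R, IsScalarTower.algebraMap_apply k C A]; rfl)
    have : Algebra.FiniteType C R := Algebra.FiniteType.of_restrictScalars_finiteType k C R
    obtain ⟨a0, ha0, h⟩ := exists_generic (C := C) (R := R) q hq (by
      rw [IsScalarTower.algebraMap_eq C A R, ← Ideal.comap_comap, hq0]
      rw [← RingHom.ker_eq_comap_bot]
      exact (RingHom.injective_iff_ker_eq_bot _).mp hCA)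
    refine ⟨a0, ha0, ?_⟩
    rintro p ⟨hp, x, rfl⟩
    by_contra hap
    obtain ⟨Q, hQ, hQp⟩ := h _ hp hap
    -- choose a maximal ideal of A above Q ∩ A
    obtain ⟨m', hm', hle⟩ := Ideal.exists_le_maximal (Q.comap (algebraMap A R))
      (Ideal.comap_ne_top _ hQ.ne_top)
    obtain ⟨b, hb, hbc⟩ := hloc m' hm' x
    apply hb
    apply hle
    have h1 : b ∈ col x := hbc
    rw [← hQp, IsScalarTower.algebraMap_eq C A R] at h1
    exact h1
  have hBfin : 𝔅.Finite := by
    apply (associatedPrimes.finite C (C ⧸ Ideal.span {a0})).subset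
    rintro q ⟨hq, x, rfl⟩
    rw [AssociatedPrimes.mem_iff, isAssociatedPrime_iff]
    obtain ⟨h, hh⟩ := ha0q _ ⟨hq, x, rfl⟩
    refine ⟨hq, Ideal.Quotient.mk _ h, ?_⟩
    ext b
    rw [hcol, Submodule.mem_colon_singleton, Submodule.mem_bot]
    have : b • (Ideal.Quotient.mk (Ideal.span {a0}) h) = Ideal.Quotient.mk _ (b * h) := rfl
    rw [this, Ideal.Quotient.eq_zero_iff_mem, Ideal.mem_span_singleton]
    have ha0A : algebraMap C A a0 ≠ 0 := by
      intro h; exact ha0 (hCA (by rw [h, map_zero]))
    constructor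
    · rintro ⟨c, hc⟩
      refine ⟨c, hCA ?_⟩
      rw [map_mul, map_mul, ← hh, ← hc]; ring
    · rintro ⟨c, hc⟩
      refine ⟨c, mul_left_cancel₀ ha0A ?_⟩
      rw [← map_mul, ← hc, map_mul, ← hh]; ring
  -- good elements
  let good : Set C := {f | ∀ x : A, ∃ n : ℕ, ∃ c : C, algebraMap C A (f ^ n) * x = algebraMap C A c}
  have hgood : ∀ f : C, (∀ q ∈ 𝔅, f ∈ q) → f ∈ good := by
    intro f hf x
    by_contra hcon
    push Not at hcon
    -- maximal colon ideal without powers of f
    let F : Set (Ideal C) := {I | (∃ y : C, I = col (algebraMap C A y * x)) ∧ ∀ n : ℕ, f ^ n ∉ I}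
    have hne : F.Nonempty := by
      refine ⟨col x, ⟨1, by rw [map_one, one_mul]⟩, ?_⟩
      intro n ⟨c, hc⟩
      exact hcon n c hc
    obtain ⟨q, ⟨⟨y, hy⟩, hqf⟩, hmax⟩ := set_has_maximal_iff_noetherian.mpr
      (inferInstance : IsNoetherian C C) F hne
    have hqp : Ideal.IsPrime q := by
      constructor
      · intro h
        apply hqf 0
        rw [h]; exact Submodule.mem_top
      · intro u v huv
        by_contra hcon2
        push Not at hcon2
        obtain ⟨hu, hv⟩ := hcon2
        -- (C : u y x) is bigger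
        have h1 : q < col (algebraMap C A (u * y) * x) := by
          rw [lt_iff_le_and_ne]
          constructor
          · intro b hb
            rw [hy] at hb
            obtain ⟨c, hc⟩ := hb
            refine ⟨u * c, ?_⟩
            rw [map_mul, map_mul, ← hc]; ring
          · intro h
            apply hv
            rw [h]
            rw [hy] at huv
            obtain ⟨c, hc⟩ := huv
            refine ⟨c, ?_⟩
            rw [← hc, map_mul, map_mul]; ring
        have h2 : ∃ n, f ^ n ∈ col (algebraMap C A (u * y) * x) := by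
          by_contra hno
          push Not at hno
          exact hmax _ ⟨⟨u * y, rfl⟩, hno⟩ h1
        obtain ⟨n, c, hc⟩ := h2
        -- then (C : f^n y x) ∋ u
        have h3 : q < col (algebraMap C A (f ^ n * y) * x) := by
          rw [lt_iff_le_and_ne]
          constructor
          · intro b hb
            rw [hy] at hb
            obtain ⟨c, hc⟩ := hb
            refine ⟨f ^ n * c, ?_⟩
            rw [map_mul, map_mul, ← hc]; ring
          · intro h
            apply hu
            rw [h]
            refine ⟨c, ?_⟩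
            rw [← hc, map_mul, map_mul]; ring
        refine hmax _ ⟨⟨f ^ n * y, rfl⟩, ?_⟩ h3
        intro n' ⟨c', hc'⟩
        apply hqf (n' + n)
        rw [hy]
        refine ⟨c', ?_⟩
        rw [← hc', pow_add, map_mul, map_mul]; ring
    exact hqf 1 (by rw [pow_one]; exact hf q ⟨hqp, _, hy⟩)
  -- the good elements generate the unit ideal of A
  have hspan : Ideal.span (algebraMap C A '' good) = ⊤ := by
    by_contra hne
    obtain ⟨m, hm, hle⟩ := Ideal.exists_le_maximal _ hne
    have hb : ∀ q ∈ 𝔅, ∃ b ∈ q, algebraMap C A b ∉ m := by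
      rintro q ⟨hq, x, rfl⟩
      obtain ⟨b, hb, hbc⟩ := hloc m hm x
      exact ⟨b, hbc, hb⟩
    choose! b hbq hbm using hb
    have h1 : (∏ q ∈ hBfin.toFinset, b q) ∈ good := by
      apply hgood
      intro q hq
      rw [← Finset.prod_erase_mul hBfin.toFinset b (hBfin.mem_toFinset.mpr hq)]
      exact Ideal.mul_mem_left _ _ (hbq q hq)
    have h2 : algebraMap C A (∏ q ∈ hBfin.toFinset, b q) ∈ m :=
      hle (Ideal.subset_span ⟨_, h1, rfl⟩)
    rw [map_prod] at h2
    obtain ⟨q, hq, hq'⟩ := (hm.isPrime.prod_mem_iff).mp h2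
    exact hbm q (by simpa using hq) hq'
  -- finish
  obtain ⟨s, hs, hs1⟩ := (Ideal.span_eq_top_iff_finite _).mp hspan
  rw [Ideal.eq_top_iff_one] at hs1
  obtain ⟨g, hg⟩ := Submodule.mem_span_finset.mp hs1
  have hCF : Algebra.FiniteType C A := by
    let T : Subalgebra C A := Algebra.adjoin C (g '' (s : Set A))
    have hTtop : T = ⊤ := by
      rw [eq_top_iff]
      intro x _
      -- ideal of T of elements y with y x ∈ T
      let I : Ideal T :=
        { carrier := {y | (y : A) * x ∈ T}
          add_mem' := by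
            intro a b ha hb
            simp only [Set.mem_ofPred_eq, Subalgebra.coe_add, add_mul] at *
            exact T.add_mem ha hb
          zero_mem' := by simp [T.zero_mem]
          smul_mem' := by
            intro a b hb
            simp only [Set.mem_ofPred_eq, smul_eq_mul, Subalgebra.coe_mul, mul_assoc] at *
            exact T.mul_mem a.2 hb }
      have hI : I = ⊤ := by
        -- s ⊂ T generates the unit ideal of T
        have hsT : ∀ y ∈ s, y ∈ T := by
          intro y hy
          obtain ⟨f, -, rfl⟩ := hs hy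
          exact T.algebraMap_mem f
        let s' : Set T := {y | (y : A) ∈ s}
        have hs' : Ideal.span s' = ⊤ := by
          rw [Ideal.eq_top_iff_one]
          have h1 : (1 : T) = ∑ y ∈ s.attach, (⟨g y, Algebra.subset_adjoin ⟨y, y.2, rfl⟩⟩ : T) *
              ⟨y, hsT y y.2⟩ := by
            apply Subtype.ext
            rw [Subalgebra.coe_one, AddSubmonoidClass.coe_finsetSum]
            simp only [Subalgebra.coe_mul]
            rw [← hg.2, ← Finset.sum_attach]
            rfl
          rw [h1]
          refine Ideal.sum_mem _ fun y _ => Ideal.mul_mem_left _ _ (Ideal.subset_span y.2)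
        -- common exponent
        have hex : ∀ y ∈ s, ∃ n : ℕ, y ^ n * x ∈ T := by
          intro y hy
          obtain ⟨f, hf, rfl⟩ := hs hy
          obtain ⟨n, c, hc⟩ := hf x
          exact ⟨n, by rw [← map_pow, hc]; exact T.algebraMap_mem c⟩
        choose! n hn using hex
        let N := ∑ y ∈ s, n y
        have hN : ∀ y ∈ s, y ^ N * x ∈ T := by
          intro y hy
          have h1 : n y ≤ N := Finset.single_le_sum (fun _ _ => Nat.zero_le _) hy
          obtain ⟨e, he⟩ := Nat.exists_eq_add_of_le h1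
          rw [he, pow_add, mul_comm (y ^ n y), mul_assoc]
          exact T.mul_mem (T.pow_mem (hsT y hy) _) (hn y hy)
        rw [eq_top_iff, ← Ideal.span_pow_eq_top s' hs' N, Ideal.span_le]
        rintro _ ⟨y, hy, rfl⟩
        exact hN y hy
      have : (1 : T) ∈ I := by rw [hI]; exact Submodule.mem_top
      have h2 : ((1 : T) : A) * x ∈ T := this
      simpa using h2
    refine ⟨⟨s.image g, ?_⟩⟩
    rw [Finset.coe_image]
    exact hTtop
  exact Algebra.FiniteType.trans ‹Algebra.FiniteType k C› hCF

end normal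

end Pool.Agent.Helper33.Ret
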