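import Mathlib
import Pool.Agent.Helper33.Ret.Diag
import Pool.Agent.Helper33.Ret.Normal

/-! # Direct summands of finitely generated algebras: the domain case -/

open TensorProduct

namespace Pool.Agent.Helper33.Ret

/-- finiteness of integral closure for finitely generated domains over a field of
characteristic zero -/
theorem finite_integralClosure {k A₀ K : Type} [Field k] [CharZero k] [CommRing A₀] [IsDomain A₀]
    [Algebra k A₀] [Algebra.FiniteType k A₀] [Field K] [Algebra A₀ K] [IsFractionRing A₀ K] :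
    Module.Finite A₀ (integralClosure A₀ K) := by
  obtain ⟨s, g, hginj, hgfin⟩ := exists_finite_inj_algHom_of_fg k A₀
  let P := MvPolynomial (Fin s) k
  let : Algebra P A₀ := g.toRingHom.toAlgebra
  have : Module.Finite P A₀ := hgfin
  let : Algebra P K := ((algebraMap A₀ K).comp g.toRingHom).toAlgebra
  have : IsScalarTower P A₀ K := IsScalarTower.of_algebraMap_eq fun _ => rfl
  have hPA : Function.Injective (algebraMap P A₀) := hginj
  have hPK : Function.Injective (algebraMap P K) := (IsFractionRing.injective A₀ K).comp hginj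
  have : FaithfulSMul P K := (faithfulSMul_iff_algebraMap_injective P K).mpr hPK
  have : FaithfulSMul P A₀ := (faithfulSMul_iff_algebraMap_injective P A₀).mpr hPA
  let : Algebra (FractionRing P) K := FractionRing.liftAlgebra P K
  have : IsScalarTower P (FractionRing P) K := FractionRing.isScalarTower_liftAlgebra P K
  have : CharZero (FractionRing P) := by
    have : Function.Injective ((algebraMap P (FractionRing P)).comp (algebraMap k P)) :=
      RingHom.injective _
    exact charZero_of_injective_ringHom this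
  have : Algebra.IsIntegral P A₀ := inferInstance
  have : Algebra.IsAlgebraic (FractionRing P) K := isAlgebraic_of_isFractionRing P A₀ ..
  have : IsLocalization (Algebra.algebraMapSubmonoid A₀ (nonZeroDivisors P)) K := inferInstance
  have : FiniteDimensional (FractionRing P) K := .of_isLocalization P A₀ (nonZeroDivisors P)
  have : IsIntegralClosure (integralClosure A₀ K) P K := by
    refine ⟨Subtype.val_injective, fun {x} => ⟨fun hx => ?_, ?_⟩⟩
    · exact ⟨⟨x, hx.tower_top⟩, rfl⟩
    · rintro ⟨y, rfl⟩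
      exact isIntegral_trans _ y.2
  have : Module.Finite P (integralClosure A₀ K) :=
    IsIntegralClosure.finite P (FractionRing P) K (integralClosure A₀ K)
  exact Module.Finite.of_restrictScalars_finite P A₀ (integralClosure A₀ K)

/-- If the diagonal ideal is generated by elements of `F` then `A` has the same image as the
field `L` whenever the image of `F` lies in `L`. -/
theorem mem_range_of_diag {k A L T : Type} [Field k] [CommRing A] [Algebra k A] [Field L]
    [CommRing T] [Algebra k L] [Algebra L T] [Algebra A T] [Algebra k T]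
    [IsScalarTower k L T] [IsScalarTower k A T] (F : Set A)
    (hF : ∀ a : A, (1 : A) ⊗ₜ[k] a - a ⊗ₜ[k] 1 ∈
      Ideal.span ((fun x : A => (1 : A) ⊗ₜ[k] x - x ⊗ₜ[k] (1 : A)) '' F))
    (hFL : ∀ x ∈ F, ∃ y : L, algebraMap L T y = algebraMap A T x) (a : A) :
    ∃ y : L, algebraMap L T y = algebraMap A T a := by
  rcases subsingleton_or_nontrivial T with hT | hT
  · exact ⟨0, Subsingleton.elim _ _⟩
  -- an `L`-linear retraction of `L → T`
  obtain ⟨lam, hlam⟩ := LinearMap.exists_leftInverse_of_injective (Algebra.linearMap L T)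
    (LinearMap.ker_eq_bot.mpr (algebraMap L T).injective)
  have hlam1 : ∀ y : L, lam (algebraMap L T y) = y := fun y => LinearMap.congr_fun hlam y
  -- `Λ (a ⊗ b) = λ(a) b`
  let lamk : A →ₗ[k] L := (lam.restrictScalars k).comp (IsScalarTower.toAlgHom k A T).toLinearMap
  let Λ : A ⊗[k] A →ₗ[k] T := TensorProduct.lift
    (((LinearMap.mul k T).comp (IsScalarTower.toAlgHom k L T).toLinearMap).comp lamk |>.compl₂
      (IsScalarTower.toAlgHom k A T).toLinearMap)
  have hΛ : ∀ x y : A, Λ (x ⊗ₜ y) = algebraMap L T (lam (algebraMap A T x)) * algebraMap A T y :=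
    fun x y => rfl
  have hker : ∀ z ∈ Ideal.span ((fun x : A => (1 : A) ⊗ₜ[k] x - x ⊗ₜ[k] (1 : A)) '' F),
      ∀ t, Λ (t * z) = 0 := by
    intro z hz
    refine Submodule.span_induction ?_ (fun t => by rw [mul_zero, map_zero])
      (fun x y _ _ hx hy t => by rw [mul_add, map_add, hx, hy, add_zero])
      (fun s x _ hx t => by rw [smul_eq_mul, ← mul_assoc, hx]) hz
    rintro _ ⟨x, hx, rfl⟩ t
    obtain ⟨y, hy⟩ := hFL x hx
    induction t with
    | zero => rw [zero_mul, map_zero]
    | add s t hs ht => rw [add_mul, map_add, hs, ht, add_zero]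
    | tmul u v =>
      rw [mul_sub, Algebra.TensorProduct.tmul_mul_tmul, Algebra.TensorProduct.tmul_mul_tmul,
        mul_one, mul_one, map_sub, hΛ, hΛ, map_mul, map_mul, ← hy]
      have h1 : lam (algebraMap A T u * algebraMap L T y) = y * lam (algebraMap A T u) := by
        rw [mul_comm, ← Algebra.smul_def, map_smul, smul_eq_mul]
      rw [h1, map_mul]
      ring
  have h1 := hker _ (hF a) 1
  rw [one_mul] at h1
  rw [map_sub, hΛ, hΛ, map_one, ← (algebraMap L T).map_one, hlam1, map_one, one_mul, mul_one,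
    sub_eq_zero] at h1
  exact ⟨_, h1.symm⟩

/-- residue fields of finitely generated algebras -/
theorem exists_residue {k B : Type} [Field k] [IsAlgClosed k] [CommRing B] [Algebra k B]
    [Algebra.FiniteType k B] (m : Ideal B) [m.IsMaximal] (x : B) :
    ∃ y : k, x - algebraMap k B y ∈ m := by
  let := Ideal.Quotient.field m
  have : Module.Finite k (B ⧸ m) := finite_of_finite_type_of_isJacobsonRing k (B ⧸ m)
  obtain ⟨y, hy⟩ := (IsAlgClosed.algebraMap_bijective_of_isIntegral (k := k) (K := B ⧸ m)).2
    (Ideal.Quotient.mk m x)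
  refine ⟨y, ?_⟩
  rw [← Ideal.Quotient.eq_zero_iff_mem, map_sub, ← hy, sub_eq_zero]
  rfl

/-- the second half of (G3), for abstract rings -/
theorem retract_stage2 {k : Type} [Field k] [IsAlgClosed k] [CharZero k] {A₀ C A A₁ R : Type}
    [CommRing A₀] [CommRing C] [IsDomain C] [IsIntegrallyClosed C] [Algebra k C]
    [Algebra.FiniteType k C] [Algebra A₀ C] [Algebra.IsIntegral A₀ C] [CommRing A] [Algebra k A]
    [Algebra A₀ A] [CommRing A₁] [IsDomain A₁] [Algebra k A₁] [Algebra A A₁] [IsScalarTower k A A₁]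
    [Module.Finite A A₁] [Algebra C A₁] [IsScalarTower k C A₁]
    [CommRing R] [Algebra k R] [Algebra A R] [IsScalarTower k A R] [Algebra.FiniteType k R]
    (hcomm : ∀ x : A₀, algebraMap C A₁ (algebraMap A₀ C x) = algebraMap A A₁ (algebraMap A₀ A x))
    (hCA₁ : Function.Injective (algebraMap C A₁)) (hAA₁ : Function.Injective (algebraMap A A₁))
    (hgen : ∀ x : A₁, x ∈ Algebra.adjoin A (Set.range (algebraMap C A₁)))
    (hfrac : ∀ a : A₁, ∃ c s : C, s ≠ 0 ∧ algebraMap C A₁ s * a = algebraMap C A₁ c)
    (hU2 : ∀ m : Ideal A₀, m.IsMaximal → ∀ a : A, ∃ y : k,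
      a - algebraMap k A y ∈ m.map (algebraMap A₀ A))
    (r : R →ₗ[A] A) (hr : r 1 = 1) : Algebra.FiniteType k A := by
  -- U2 for C
  have hU : ∀ m : Ideal C, m.IsMaximal → ∀ a : A₁, ∃ c : C,
      a - algebraMap C A₁ c ∈ m.map (algebraMap C A₁) := by
    intro m hm x
    have hm₀ : (m.comap (algebraMap A₀ C)).IsMaximal :=
      Ideal.isMaximal_comap_of_isIntegral_of_isMaximal m
    have hx := hgen x
    induction hx using Algebra.adjoin_induction with
    | mem x hx =>
      obtain ⟨c, rfl⟩ := hx
      exact ⟨c, by rw [sub_self]; exact Ideal.zero_mem _⟩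
    | algebraMap a =>
      obtain ⟨y, hy⟩ := hU2 _ hm₀ a
      refine ⟨algebraMap k C y, ?_⟩
      have h1 := Ideal.mem_map_of_mem (algebraMap A A₁) hy
      rw [Ideal.map_map, map_sub, ← IsScalarTower.algebraMap_apply k A A₁,
        IsScalarTower.algebraMap_apply k C A₁] at h1
      have h2 : (m.comap (algebraMap A₀ C)).map ((algebraMap A A₁).comp (algebraMap A₀ A)) ≤
          m.map (algebraMap C A₁) := by
        rw [Ideal.map_le_iff_le_comap]
        intro z hz
        have h3 := Ideal.mem_map_of_mem (algebraMap C A₁) (Ideal.mem_comap.mp hz)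
        rw [hcomm] at h3
        exact h3
      exact h2 h1
    | add x y _ _ h1 h2 =>
      obtain ⟨c, hc⟩ := h1
      obtain ⟨d, hd⟩ := h2
      refine ⟨c + d, ?_⟩
      rw [map_add, add_sub_add_comm]
      exact Ideal.add_mem _ hc hd
    | mul x y _ _ h1 h2 =>
      obtain ⟨c, hc⟩ := h1
      obtain ⟨d, hd⟩ := h2
      refine ⟨c * d, ?_⟩
      have h3 : x * y - algebraMap C A₁ (c * d) =
          x * (y - algebraMap C A₁ d) + algebraMap C A₁ d * (x - algebraMap C A₁ c) := by
        rw [map_mul]
        ring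
      rw [h3]
      exact Ideal.add_mem _ (Ideal.mul_mem_left _ _ hd) (Ideal.mul_mem_left _ _ hc)
  -- the retract
  let R₁ := A₁ ⊗[A] R
  let r₁ : R₁ →ₗ[A₁] A₁ :=
    (TensorProduct.AlgebraTensorModule.rid A A₁ A₁).toLinearMap.comp (LinearMap.baseChange A₁ r)
  have hr₁ : r₁ 1 = 1 := by
    show (TensorProduct.AlgebraTensorModule.rid A A₁ A₁) (LinearMap.baseChange A₁ r (1 ⊗ₜ 1)) = 1
    rw [LinearMap.baseChange_tmul, hr]
    simp
  have hR₁ : Algebra.FiniteType k R₁ := by
    have h1 : Algebra.FiniteType R (R ⊗[A] A₁) := inferInstance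
    have h2 : Algebra.FiniteType k (R ⊗[A] A₁) := Algebra.FiniteType.trans ‹_› h1
    exact h2.equiv ((Algebra.TensorProduct.comm A R A₁).restrictScalars k)
  have hA₁ : Algebra.FiniteType k A₁ := fg_of_normal_sub (C := C) hCA₁ r₁ hr₁ hfrac hU
  exact ⟨fg_of_fg_of_fg k A A₁ hA₁.out (Module.Finite.fg_top) hAA₁⟩

/-- (G3) -/
theorem retract_domain {k : Type} [Field k] [IsAlgClosed k] [CharZero k] {A R : Type}
    [CommRing A] [IsDomain A] [CommRing R] [Algebra k A] [Algebra k R] [Algebra A R]
    [IsScalarTower k A R] [Algebra.FiniteType k R] (r : R →ₗ[A] A) (hr : r 1 = 1) :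
    Algebra.FiniteType k A := by
  classical
  obtain ⟨F, hF⟩ := exists_finset_diagonal (k := k) r hr
  let A₀ : Subalgebra k A := Algebra.adjoin k (F : Set A)
  have hA₀ : Algebra.FiniteType k A₀ := (Subalgebra.fg_iff_finiteType _).mp ⟨F, rfl⟩
  let K := FractionRing A
  have hAK : Function.Injective (algebraMap A K) := IsFractionRing.injective A K
  -- U1
  have hU1 : ∀ a : A, ∃ c s : A₀, s ≠ 0 ∧ (s : A) * a = c := by
    intro a
    let K₀ : IntermediateField k K := IntermediateField.adjoin k (algebraMap A K '' F)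
    obtain ⟨y, hy⟩ := mem_range_of_diag (L := K₀) (T := K) (F : Set A) hF
      (fun x hx => ⟨⟨algebraMap A K x, IntermediateField.subset_adjoin _ _ ⟨x, hx, rfl⟩⟩, rfl⟩) a
    have h1 : algebraMap A K a ∈ K₀ := by rw [← hy]; exact y.2
    obtain ⟨c, hc, s, hs, hcs⟩ := IntermediateField.mem_adjoin_iff_div.mp h1
    have h2 : Algebra.adjoin k (algebraMap A K '' F) = A₀.map (IsScalarTower.toAlgHom k A K) := by
      rw [AlgHom.map_adjoin]
      rfl
    rw [h2] at hc hs
    obtain ⟨c', hc', rfl⟩ := hc
    obtain ⟨s', hs', rfl⟩ := hs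
    rcases eq_or_ne s' 0 with h0 | h0
    · refine ⟨0, 1, one_ne_zero, ?_⟩
      apply hAK
      rw [map_mul, hcs, h0]
      simp
    · refine ⟨⟨c', hc'⟩, ⟨s', hs'⟩, fun h => h0 (congrArg Subtype.val h), ?_⟩
      apply hAK
      show algebraMap A K (s' * a) = algebraMap A K c'
      rw [map_mul, hcs]
      show algebraMap A K s' * (algebraMap A K c' / algebraMap A K s') = _
      have h3 : algebraMap A K s' ≠ 0 := fun h => h0 (hAK (by rw [h, map_zero]))
      rw [mul_comm, div_mul_cancel₀ _ h3]
  have hA₀K : Function.Injective (algebraMap A₀ K) := hAK.comp Subtype.val_injective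
  have : FaithfulSMul A₀ K := (faithfulSMul_iff_algebraMap_injective A₀ K).mpr hA₀K
  have hfr : IsFractionRing A₀ K := by
    refine IsFractionRing.of_field A₀ K fun z => ?_
    obtain ⟨a, b, -, rfl⟩ := IsFractionRing.div_surjective A z
    obtain ⟨c, s, hs, hcs⟩ := hU1 a
    obtain ⟨c', s', hs', hcs'⟩ := hU1 b
    refine ⟨c * s', s * c', ?_⟩
    have h1 : algebraMap A₀ K s * algebraMap A K a = algebraMap A₀ K c := by
      show algebraMap A K s * algebraMap A K a = algebraMap A K c
      rw [← map_mul, hcs]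
    have h2 : algebraMap A₀ K s' * algebraMap A K b = algebraMap A₀ K c' := by
      show algebraMap A K s' * algebraMap A K b = algebraMap A K c'
      rw [← map_mul, hcs']
    have h3 : algebraMap A₀ K s ≠ 0 := fun h => hs (hA₀K (by rw [h, map_zero]))
    have h4 : algebraMap A₀ K s' ≠ 0 := fun h => hs' (hA₀K (by rw [h, map_zero]))
    rw [map_mul, map_mul, ← h1, ← h2]
    rcases eq_or_ne (algebraMap A K b) 0 with h5 | h5
    · rw [h5]; simp
    · rw [div_eq_div_iff h5 (mul_ne_zero h3 (mul_ne_zero h4 h5))]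
      ring
  -- U2 for A₀
  have hU2 : ∀ m : Ideal A₀, m.IsMaximal → ∀ a : A, ∃ y : k,
      a - algebraMap k A y ∈ m.map (algebraMap A₀ A) := by
    intro m hm a
    obtain ⟨y, hy⟩ := mem_range_of_diag (L := k) (T := A ⧸ m.map (algebraMap A₀ A)) (F : Set A) hF
      (fun x hx => by
        obtain ⟨y, hy⟩ := exists_residue (k := k) m ⟨x, Algebra.subset_adjoin hx⟩
        refine ⟨y, ?_⟩
        have h1 := Ideal.mem_map_of_mem (algebraMap A₀ A) hy
        symm
        rw [← sub_eq_zero]
        have h2 : (Ideal.Quotient.mk (m.map (algebraMap A₀ A))) (x - algebraMap k A y) = 0 :=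
          Ideal.Quotient.eq_zero_iff_mem.mpr h1
        rw [map_sub] at h2
        exact h2) a
    refine ⟨y, ?_⟩
    rw [← Ideal.Quotient.eq_zero_iff_mem, map_sub, sub_eq_zero]
    exact hy.symm
  -- the normalization
  let C := integralClosure A₀ K
  have hCfin : Module.Finite A₀ C := finite_integralClosure (k := k)
  have hCnor : IsIntegrallyClosed C := integralClosure.isIntegrallyClosedOfFiniteExtension K
  have hCft : Algebra.FiniteType k C := Algebra.FiniteType.trans hA₀ inferInstance
  obtain ⟨s, hs⟩ := hCfin.fg_top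
  let s' : Set K := (algebraMap C K) '' (s : Set C)
  let A₁ : Subalgebra A K := Algebra.adjoin A s'
  have hCA₁ : ∀ c : C, (c : K) ∈ A₁ := by
    intro c
    have hc : c ∈ Submodule.span A₀ (s : Set C) := by rw [hs]; trivial
    induction hc using Submodule.span_induction with
    | mem x hx => exact Algebra.subset_adjoin ⟨x, hx, rfl⟩
    | zero => exact A₁.zero_mem
    | add x y _ _ hx hy => exact A₁.add_mem hx hy
    | smul t x _ hx =>
      have h1 : ((t • x : C) : K) = algebraMap A K (t : A) * x := by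
        rw [Algebra.smul_def]; rfl
      rw [h1]
      exact A₁.mul_mem (A₁.algebraMap_mem _) hx
  have hA₁fin : Module.Finite A A₁ := by
    refine Module.Finite.iff_fg.mpr (fg_adjoin_of_finite ((s.finite_toSet).image _) ?_)
    rintro _ ⟨x, hx, rfl⟩
    have h1 : IsIntegral A₀ (algebraMap C K x) := x.2
    exact h1.tower_top
  let ι : C →+* A₁ :=
    { toFun := fun c => ⟨c, hCA₁ c⟩
      map_one' := rfl
      map_mul' := fun _ _ => rfl
      map_zero' := rfl
      map_add' := fun _ _ => rfl }
  let : Algebra C A₁ := ι.toAlgebra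
  have : IsScalarTower k C A₁ := IsScalarTower.of_algebraMap_eq fun x => Subtype.ext rfl
  have hCA₁inj : Function.Injective ι := fun x y hxy => by
    have h1 : (ι x : K) = ι y := by rw [hxy]
    exact Subtype.ext h1
  have hint : Algebra.IsIntegral A₀ C := inferInstance
  have hgen : ∀ x : A₁, x ∈ Algebra.adjoin A (Set.range (algebraMap C A₁)) := by
    rintro ⟨x, hx⟩
    induction hx using Algebra.adjoin_induction with
    | mem x hx =>
      obtain ⟨c, hc, rfl⟩ := hx
      exact Algebra.subset_adjoin ⟨c, rfl⟩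
    | algebraMap a => exact Subalgebra.algebraMap_mem _ a
    | add x y hx hy h1 h2 => exact add_mem h1 h2
    | mul x y hx hy h1 h2 => exact mul_mem h1 h2
  have hfrac : ∀ a : A₁, ∃ c s : C, s ≠ 0 ∧ algebraMap C A₁ s * a = algebraMap C A₁ c := by
    rintro ⟨a, ha⟩
    obtain ⟨⟨c, s⟩, hcs⟩ := IsLocalization.surj (nonZeroDivisors A₀) a
    refine ⟨algebraMap A₀ C c, algebraMap A₀ C s, ?_, ?_⟩
    · intro h
      have h1 : algebraMap A₀ K s = 0 := congrArg (algebraMap C K) h
      exact nonZeroDivisors.coe_ne_zero s (hA₀K (by rw [h1, map_zero]))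
    · apply Subtype.ext
      show algebraMap A₀ K s * a = algebraMap A₀ K c
      rw [← hcs, mul_comm]
  exact retract_stage2 (A₀ := A₀) (C := C) (A₁ := A₁) (fun x => Subtype.ext rfl) hCA₁inj
    (fun x y hxy => hAK (congrArg Subtype.val hxy)) hgen hfrac hU2 r hr

end Pool.Agent.Helper33.Ret
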