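import Mathlib
import Pool.Agent.Helper33.Ret.Retract
import Pool.Agent.Helper33.Ret.Domain

/-! # A retract of a finitely generated algebra is finitely generated -/

namespace Pool.Agent.Helper33.Ret

/-- finite generation of `A / I`, expressed upstairs -/
def FGMod (k : Type) {A : Type} [Field k] [CommRing A] [Algebra k A] (I : Ideal A) : Prop :=
  ∃ S : Finset A, ∀ a : A, ∃ c ∈ Algebra.adjoin k (S : Set A), a - c ∈ I

theorem FGMod.of_finiteType {k A : Type} [Field k] [CommRing A] [Algebra k A] (I : Ideal A)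
    (h : Algebra.FiniteType k (A ⧸ I)) : FGMod k I := by
  classical
  obtain ⟨S, hS⟩ := h.out
  have hsurj : Function.Surjective (Ideal.Quotient.mkₐ k I) := Ideal.Quotient.mkₐ_surjective k I
  choose g hg using hsurj
  refine ⟨S.image g, fun a => ?_⟩
  have himage : (Ideal.Quotient.mkₐ k I) '' ((S.image g : Finset A) : Set A) = (S : Set (A ⧸ I)) := by
    ext y
    constructor
    · rintro ⟨x, hx, rfl⟩
      simp only [Finset.coe_image] at hx
      obtain ⟨z, hz, rfl⟩ := hx
      rw [hg]
      exact hz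
    · intro hy
      refine ⟨g y, ?_, hg y⟩
      simp only [Finset.coe_image]
      exact ⟨y, hy, rfl⟩
  have hmem : Ideal.Quotient.mkₐ k I a ∈
      (Algebra.adjoin k ((S.image g : Finset A) : Set A)).map (Ideal.Quotient.mkₐ k I) := by
    rw [AlgHom.map_adjoin, himage, hS]
    exact Algebra.mem_top
  obtain ⟨c, hc, hca⟩ := Subalgebra.mem_map.mp hmem
  refine ⟨c, hc, ?_⟩
  rw [← Ideal.Quotient.eq_zero_iff_mem, map_sub, sub_eq_zero]
  exact hca.symm

theorem FGMod.finiteType_of_bot {k A : Type} [Field k] [CommRing A] [Algebra k A]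
    (h : FGMod k (⊥ : Ideal A)) : Algebra.FiniteType k A := by
  obtain ⟨S, hS⟩ := h
  refine ⟨⟨S, ?_⟩⟩
  rw [eq_top_iff]
  intro a _
  obtain ⟨c, hc, hac⟩ := hS a
  rw [Ideal.mem_bot, sub_eq_zero] at hac
  rw [hac]
  exact hc

theorem FGMod.of_mul {k A : Type} [Field k] [CommRing A] [Algebra k A] {I J₁ J₂ : Ideal A}
    (hmul : J₁ * J₂ ≤ I) (hfg : J₁.FG) (h₁ : FGMod k J₁) (h₂ : FGMod k J₂) : FGMod k I := by
  classical
  obtain ⟨S₁, hS₁⟩ := h₁
  obtain ⟨S₂, hS₂⟩ := h₂
  obtain ⟨T, hT⟩ := hfg
  let S : Finset A := S₁ ∪ S₂ ∪ T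
  have hle₁ : Algebra.adjoin k (S₁ : Set A) ≤ Algebra.adjoin k (S : Set A) :=
    Algebra.adjoin_mono (by
      intro x hx
      simp only [S, Finset.coe_union]
      exact Or.inl (Or.inl hx))
  have hle₂ : Algebra.adjoin k (S₂ : Set A) ≤ Algebra.adjoin k (S : Set A) :=
    Algebra.adjoin_mono (by
      intro x hx
      simp only [S, Finset.coe_union]
      exact Or.inl (Or.inr hx))
  have hT' : ∀ x ∈ T, x ∈ Algebra.adjoin k (S : Set A) := by
    intro x hx
    apply Algebra.subset_adjoin
    simp only [S, Finset.coe_union]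
    exact Or.inr hx
  -- elements of `J₁`
  have hJ₁ : ∀ x ∈ J₁, ∃ c ∈ Algebra.adjoin k (S : Set A), x - c ∈ I := by
    intro x hx
    rw [← hT] at hx
    refine Submodule.span_induction ?_ ?_ ?_ ?_ hx
    · intro y hy
      exact ⟨y, hT' y hy, by simp⟩
    · exact ⟨0, Subalgebra.zero_mem _, by simp⟩
    · rintro y z _ _ ⟨c, hc, hyc⟩ ⟨d, hd, hzd⟩
      refine ⟨c + d, Subalgebra.add_mem _ hc hd, ?_⟩
      have : y + z - (c + d) = (y - c) + (z - d) := by ring
      rw [this]
      exact I.add_mem hyc hzd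
    · rintro α y hy ⟨c, hc, hyc⟩
      obtain ⟨d, hd, hαd⟩ := hS₂ α
      refine ⟨d * c, Subalgebra.mul_mem _ (hle₂ hd) hc, ?_⟩
      have hyJ : y ∈ J₁ := by rw [← hT]; exact hy
      have h1 : (α - d) * y ∈ I := by
        apply hmul
        have h2 : y * (α - d) ∈ J₁ * J₂ := Ideal.mul_mem_mul hyJ hαd
        have h3 : (α - d) * y = y * (α - d) := by ring
        rw [h3]
        exact h2
      have : α • y - d * c = (α - d) * y + d * (y - c) := by
        rw [smul_eq_mul]; ring
      rw [this]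
      exact I.add_mem h1 (I.mul_mem_left _ hyc)
  refine ⟨S, fun a => ?_⟩
  obtain ⟨c, hc, hac⟩ := hS₁ a
  obtain ⟨d, hd, hd'⟩ := hJ₁ _ hac
  refine ⟨c + d, Subalgebra.add_mem _ (hle₁ hc) hd, ?_⟩
  have : a - (c + d) = a - c - d := by ring
  rw [this]
  exact hd'

/-- the quotient of a retract by a prime ideal -/
theorem fgMod_of_prime {k : Type} [Field k] [IsAlgClosed k] [CharZero k] {A R : Type}
    [CommRing A] [CommRing R] [Algebra k A] [Algebra k R] [Algebra A R] [IsScalarTower k A R]
    [Algebra.FiniteType k R] (r : R →ₗ[A] A) (hr : r 1 = 1) (I : Ideal A) [I.IsPrime] :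
    FGMod k I := by
  apply FGMod.of_finiteType
  let J : Ideal R := I.map (algebraMap A R)
  let _ : Algebra (A ⧸ I) (R ⧸ J) := Ideal.Quotient.algebraQuotientOfLEComap Ideal.le_comap_map
  have htower : IsScalarTower k (A ⧸ I) (R ⧸ J) := by
    refine IsScalarTower.of_algebraMap_eq (fun x => ?_)
    change Ideal.Quotient.mk J (algebraMap k R x) =
      Ideal.Quotient.mk J (algebraMap A R (algebraMap k A x))
    rw [← IsScalarTower.algebraMap_apply]
  have hle : ∀ x ∈ J, r x ∈ I := by
    intro x hx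
    have h2 : x ∈ (I • (⊤ : Submodule A R)) := by
      rw [Ideal.smul_top_eq_map]
      exact hx
    refine Submodule.smul_induction_on h2 ?_ ?_
    · intro c hc y _
      rw [map_smul, smul_eq_mul]
      exact I.mul_mem_right _ hc
    · intro y z hy hz
      rw [map_add]
      exact I.add_mem hy hz
  -- additive version of the induced retraction
  let ρ : (R ⧸ J) →+ (A ⧸ I) :=
    QuotientAddGroup.lift _ (((Ideal.Quotient.mk I : A →+* A ⧸ I) : A →+ A ⧸ I).comp
      (r : R →+ A)) (by
        intro x hx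
        change Ideal.Quotient.mk I (r x) = 0
        rw [Ideal.Quotient.eq_zero_iff_mem]
        exact hle x hx)
  have hρ : ∀ x : R, ρ (Ideal.Quotient.mk J x) = Ideal.Quotient.mk I (r x) := fun x => rfl
  let ρ' : (R ⧸ J) →ₗ[A ⧸ I] (A ⧸ I) :=
    { toFun := ρ
      map_add' := map_add ρ
      map_smul' := by
        intro c z
        obtain ⟨c, rfl⟩ := Ideal.Quotient.mk_surjective c
        obtain ⟨z, rfl⟩ := Ideal.Quotient.mk_surjective z
        have h1 : (Ideal.Quotient.mk I c) • (Ideal.Quotient.mk J z) =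
            Ideal.Quotient.mk J (c • z) := by
          rw [Algebra.smul_def, Algebra.smul_def, map_mul]
          rfl
        rw [h1, hρ, map_smul, smul_eq_mul, map_mul, RingHom.id_apply, smul_eq_mul, hρ] }
  have hρ1 : ρ' 1 = 1 := by
    change ρ (Ideal.Quotient.mk J 1) = 1
    rw [hρ, hr, map_one]
  exact retract_domain ρ' hρ1

/-- (G4) a retract of a finitely generated algebra is finitely generated. -/
theorem retract_finiteType {k : Type} [Field k] [IsAlgClosed k] [CharZero k] {A R : Type}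
    [CommRing A] [CommRing R] [Algebra k A] [Algebra k R] [Algebra A R] [IsScalarTower k A R]
    [Algebra.FiniteType k R] (r : R →ₗ[A] A) (hr : r 1 = 1) : Algebra.FiniteType k A := by
  have hR : IsNoetherianRing R := Algebra.FiniteType.isNoetherianRing k R
  have hA : IsNoetherianRing A := noetherian_of_retract r hr
  apply FGMod.finiteType_of_bot
  refine IsNoetherian.induction (P := fun I : Ideal A => FGMod k I) ?_ ⊥
  intro (I : Ideal A) ih
  by_cases htop : I = ⊤
  · refine ⟨∅, fun a => ⟨0, Subalgebra.zero_mem _, ?_⟩⟩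
    rw [htop]
    exact Submodule.mem_top
  by_cases hprime : I.IsPrime
  · exact fgMod_of_prime r hr I
  · obtain ⟨a, ha, b, hb, hab⟩ : ∃ a, a ∉ I ∧ ∃ b, b ∉ I ∧ a * b ∈ I := by
      by_contra hcon
      push Not at hcon
      apply hprime
      refine ⟨htop, ?_⟩
      intro x y hxy
      by_contra h
      push Not at h
      exact hcon x h.1 y h.2 hxy
    have hlt : ∀ c, c ∉ I → I < I ⊔ Ideal.span {c} := by
      intro c hc
      refine lt_of_le_of_ne le_sup_left (fun h => hc ?_)
      rw [h]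
      exact Ideal.mem_sup_right (Ideal.mem_span_singleton_self c)
    refine FGMod.of_mul (J₁ := I ⊔ Ideal.span {a}) (J₂ := I ⊔ Ideal.span {b}) ?_
      (IsNoetherian.noetherian _) (ih _ (hlt a ha)) (ih _ (hlt b hb))
    rw [Ideal.sup_mul, Ideal.mul_sup, Ideal.mul_sup]
    refine sup_le (sup_le ?_ ?_) (sup_le ?_ ?_)
    · exact Ideal.mul_le_left
    · exact Ideal.mul_le_left
    · exact Ideal.mul_le_right
    · rw [Ideal.span_singleton_mul_span_singleton, Ideal.span_singleton_le_iff_mem]
      exact hab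

end Pool.Agent.Helper33.Ret
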