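import Mathlib
import Pool.Agent.Helper33.Ret.Main

open TensorProduct

namespace Pool.Agent.Helper33.Ret

/-- (G5) real version of `retract_finiteType`, by complexification. -/
theorem retract_finiteType_real {A R : Type}
    [CommRing A] [CommRing R] [Algebra ℝ A] [Algebra ℝ R] [Algebra A R] [IsScalarTower ℝ A R]
    [Algebra.FiniteType ℝ R] (r : R →ₗ[A] A) (hr : r 1 = 1) : Algebra.FiniteType ℝ A := by
  classical
  -- the complexified algebra structure
  let φ : ℂ ⊗[ℝ] A →ₐ[ℂ] ℂ ⊗[ℝ] R :=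
    Algebra.TensorProduct.map (AlgHom.id ℂ ℂ) (IsScalarTower.toAlgHom ℝ A R)
  let rR : R →ₗ[ℝ] A := r.restrictScalars ℝ
  let rC0 : ℂ ⊗[ℝ] R →ₗ[ℝ] ℂ ⊗[ℝ] A := TensorProduct.map LinearMap.id rR
  have hsm : ∀ (x : ℂ ⊗[ℝ] A) (y : ℂ ⊗[ℝ] R), rC0 (φ x * y) = x * rC0 y := by
    intro x y
    induction x using TensorProduct.induction_on with
    | zero => simp
    | add x₁ x₂ h₁ h₂ => rw [map_add, add_mul, map_add, h₁, h₂, add_mul]
    | tmul c a =>
      induction y using TensorProduct.induction_on with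
      | zero => simp
      | add y₁ y₂ h₁ h₂ => rw [mul_add, map_add, h₁, h₂, map_add, mul_add]
      | tmul d b =>
        simp only [φ, rC0, rR, Algebra.TensorProduct.map_tmul, AlgHom.id_apply,
          IsScalarTower.coe_toAlgHom', Algebra.TensorProduct.tmul_mul_tmul, TensorProduct.map_tmul,
          LinearMap.id_apply, LinearMap.coe_restrictScalars]
        rw [← Algebra.smul_def, map_smul, smul_eq_mul]
  have hr1 : rC0 1 = 1 := by
    rw [Algebra.TensorProduct.one_def]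
    simp only [rC0, rR, TensorProduct.map_tmul, LinearMap.id_apply,
      LinearMap.coe_restrictScalars, hr]
    rfl
  clear_value rC0
  have key : Algebra.FiniteType ℂ (ℂ ⊗[ℝ] A) := by
    let inst : Algebra (ℂ ⊗[ℝ] A) (ℂ ⊗[ℝ] R) := φ.toRingHom.toAlgebra
    have ht : IsScalarTower ℂ (ℂ ⊗[ℝ] A) (ℂ ⊗[ℝ] R) :=
      IsScalarTower.of_algebraMap_eq (R := ℂ) (S := ℂ ⊗[ℝ] A) (A := ℂ ⊗[ℝ] R)
        (fun x => (φ.commutes x).symm)
    let rC : @LinearMap (ℂ ⊗[ℝ] A) (ℂ ⊗[ℝ] A) _ _ (RingHom.id _) (ℂ ⊗[ℝ] R) (ℂ ⊗[ℝ] A) _ _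
        inst.toModule _ :=
      { toFun := rC0
        map_add' := fun x y => map_add _ _ _
        map_smul' := fun x y => by
          rw [@Algebra.smul_def _ _ _ _ inst]
          exact hsm x y }
    exact @retract_finiteType ℂ _ _ _ (ℂ ⊗[ℝ] A) (ℂ ⊗[ℝ] R) _ _ _ _ inst ht
      inferInstance rC hr1
  have h1 : Algebra.FiniteType ℝ (ℂ ⊗[ℝ] A) :=
    Algebra.FiniteType.trans (S := ℂ) inferInstance key
  have h2 : Algebra.FiniteType ℝ (A ⊗[ℝ] ℂ) :=
    Algebra.FiniteType.equiv h1 (Algebra.TensorProduct.comm ℝ ℂ A)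
  refine ⟨fg_of_fg_of_fg ℝ A (A ⊗[ℝ] ℂ) ?_ ?_ ?_⟩
  · exact h2.out
  · exact Module.Finite.fg_top
  · exact Algebra.TensorProduct.includeLeft_injective (S := ℝ) (A := A) (B := ℂ)
      (algebraMap ℝ ℂ).injective

end Pool.Agent.Helper33.Ret
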